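import Pool.Agent.R293.TG.Fam

/-!
MP_8a69f9_an: the kernel of the regular representation is zero.
-/

set_option autoImplicit false

open Topology Filter Cardinal

namespace Pool.Agent.R293.TG

open Pool.Agent.W657.TG ContinuousLinearMap

universe u

namespace Sit

section general

variable {B X K : Type u} [CStarAlgebra B] [TopologicalSpace X] [NormedAddCommGroup K]
    [InnerProductSpace ℂ K] [CompleteSpace K] (s : Sit B X K)

theorem E_left (d : C(X, ℂ)) (a : B) (u : X) : inner ℂ (s.δ u) (s.Λ (s.ι d * a) (s.δ u)) =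
    d u * inner ℂ (s.δ u) (s.Λ a (s.δ u)) := by
  rw [s.Λ_mul]
  show inner ℂ (s.δ u) (s.Λ (s.ι d) (s.Λ a (s.δ u))) = _
  rw [← adjoint_inner_left, ← star_eq_adjoint, ← s.Λ_star, ← map_star, s.ι_δ, inner_smul_left]
  congr 1
  show (starRingEnd ℂ) (star (d u)) = d u
  simp

theorem E_right (d : C(X, ℂ)) (a : B) (u : X) : inner ℂ (s.δ u) (s.Λ (a * s.ι d) (s.δ u)) =
    d u * inner ℂ (s.δ u) (s.Λ a (s.δ u)) := by
  rw [s.Λ_mul]
  show inner ℂ (s.δ u) (s.Λ a (s.Λ (s.ι d) (s.δ u))) = _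
  rw [s.ι_δ, map_smul, inner_smul_right]

theorem E_sq (a : B) (u : X) : inner ℂ (s.δ u) (s.Λ (star a * a) (s.δ u)) =
    ((‖s.Λ a (s.δ u)‖ ^ 2 : ℝ) : ℂ) := by
  rw [s.Λ_mul, s.Λ_star]
  show inner ℂ (s.δ u) (star (s.Λ a) (s.Λ a (s.δ u))) = _
  rw [star_eq_adjoint, adjoint_inner_right, inner_self_eq_norm_sq_to_K]
  push_cast
  rfl

theorem Λ_le (a : B) (u : X) : ‖s.Λ a (s.δ u)‖ ≤ ‖a‖ := by
  have := (s.Λ a).le_opNorm (s.δ u)
  rw [s.δ_norm, mul_one] at this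
  exact this.trans (s.Λ_norm a)

theorem norm_cont (a : B) : Continuous fun u => ‖s.Λ a (s.δ u)‖ := by
  have h1 : (fun u => ‖s.Λ a (s.δ u)‖) =
      fun u => Real.sqrt (inner ℂ (s.δ u) (s.Λ (star a * a) (s.δ u))).re := by
    funext u
    rw [s.E_sq, Complex.ofReal_re, Real.sqrt_sq (norm_nonneg _)]
  rw [h1]
  exact Real.continuous_sqrt.comp (Complex.continuous_re.comp (s.cont _))

end general

section A

variable {I X K : Type u} [TopologicalSpace X] [CompactSpace X] [NormedAddCommGroup K]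
    [InnerProductSpace ℂ K] [CompleteSpace K]

theorem PP_insert {a : I} {t : Set I} (h : a ∉ t) : PP (insert a t) = PP {a} + PP t := by
  classical
  ext f x
  show _ = (PP {a} f) x + (PP t f) x
  rw [PP_apply, PP_apply, PP_apply]
  by_cases h1 : x = a
  · subst h1
    simp [h]
  · by_cases h2 : x ∈ t
    · simp [h1, h2]
    · simp [h1, h2]

theorem caseA (s : Sit (l2 I →L[ℂ] l2 I) X K) (hne : s.Λ 1 ≠ 0) (i0 : I)
    (h0 : s.Λ (PP {i0}) = 0) : False := by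
  classical
  have hle : ∀ A B : Set I, #A ≤ #B → s.Λ (PP B) = 0 → s.Λ (PP A) = 0 := by
    intro A B h hB
    obtain ⟨V, W, h1⟩ := PP_equiv h
    rw [← h1, s.Λ_mul, s.Λ_mul, hB, mul_zero, zero_mul]
  obtain ⟨A, hA, hmin⟩ : ∃ A : Set I, s.Λ (PP A) ≠ 0 ∧ ∀ B : Set I, #B < #A →
      s.Λ (PP B) = 0 := by
    have hne' : {c : Cardinal.{u} | ∃ A : Set I, #A = c ∧ s.Λ (PP A) ≠ 0}.Nonempty :=
      ⟨_, Set.univ, rfl, by rw [PP_univ]; exact hne⟩
    obtain ⟨c, ⟨A, hAc, hA⟩, hmin⟩ := Cardinal.lt_wf.has_min _ hne'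
    refine ⟨A, hA, fun B hB => ?_⟩
    by_contra h
    exact hmin _ ⟨B, rfl, h⟩ (by rw [← hAc]; exact hB)
  have hsing : ∀ i : I, s.Λ (PP {i}) = 0 := fun i => hle _ {i0} (by simp) h0
  have hfin : ∀ t : Finset I, s.Λ (PP (t : Set I)) = 0 := by
    intro t
    induction t using Finset.induction_on with
    | empty =>
      have h1 : PP ((∅ : Finset I) : Set I) = 0 := by
        ext f x
        rw [PP_apply]
        simp
      rw [h1, map_zero]
    | insert a t ha ih =>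
      rw [Finset.coe_insert, PP_insert (by simpa using ha), map_add, hsing, ih, add_zero]
  have hinf : ℵ₀ ≤ #A := by
    by_contra hlt
    push Not at hlt
    have hAf : A.Finite := Cardinal.lt_aleph0_iff_set_finite.1 hlt
    have := hfin hAf.toFinset
    rw [hAf.coe_toFinset] at this
    exact hA this
  set κ := #A with hκ
  obtain ⟨𝓕, h𝓕c, h𝓕⟩ := exists_family κ hinf
  have hKc : #(κ.ord.ToType) = κ := mk_ord_toType κ
  obtain ⟨e⟩ : Nonempty (κ.ord.ToType × κ.ord.ToType ≃ A) := by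
    rw [← Cardinal.eq, mk_prod, lift_id, hKc, mul_eq_self hinf]
  set Af : (κ.ord.ToType → κ.ord.ToType) → Set I := fun f => Set.range fun α => (e (α, f α)).1
    with hAf
  have hinj : ∀ f : κ.ord.ToType → κ.ord.ToType, Function.Injective fun α => (e (α, f α)).1 := by
    intro f α β h
    have h1 := e.injective (Subtype.ext h)
    exact congrArg Prod.fst h1
  have hAfc : ∀ f, #(Af f) = κ := fun f => by
    rw [hAf]
    show #(Set.range _) = κ
    rw [mk_range_eq _ (hinj f), hKc]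
  have hAfA : ∀ f, Af f ⊆ A := by
    rintro f _ ⟨α, rfl⟩
    exact (e (α, f α)).2
  have hP0 : ∀ f, s.Λ (PP (Af f)) ≠ 0 := fun f h =>
    hA (hle A (Af f) (by rw [hAfc]) h)
  have hPP : ∀ f ∈ 𝓕, ∀ g ∈ 𝓕, f ≠ g → s.Λ (PP (Af f)) * s.Λ (PP (Af g)) = 0 := by
    intro f hf g hg hfg
    rw [← s.Λ_mul, PP_mul]
    apply hmin
    have h1 : Af f ∩ Af g ⊆ (fun α => (e (α, f α)).1) '' {α | f α = g α} := by
      rintro x ⟨⟨α, rfl⟩, ⟨β, hβ⟩⟩
      refine ⟨α, ?_, rfl⟩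
      have h2 := e.injective (Subtype.ext hβ)
      have h3 : β = α := congrArg Prod.fst h2
      have h4 : g β = f α := congrArg Prod.snd h2
      rw [h3] at h4
      exact h4.symm
    exact ((mk_le_mk_of_subset h1).trans mk_image_le).trans_lt (h𝓕 f hf g hg hfg)
  have hPsq : ∀ f, star (PP (Af f)) * PP (Af f) = PP (Af f) := fun f => by
    rw [PP_star, PP_mul, Set.inter_self]
  have hE : ∀ f u, inner ℂ (s.δ u) (s.Λ (PP (Af f)) (s.δ u)) =
      ((‖s.Λ (PP (Af f)) (s.δ u)‖ ^ 2 : ℝ) : ℂ) := by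
    intro f u
    have := s.E_sq (PP (Af f)) u
    rw [hPsq] at this
    exact this
  have hsum : ∀ (F : Finset 𝓕) (u : X), ∑ f ∈ F, ‖s.Λ (PP (Af f.1)) (s.δ u)‖ ^ 2 ≤ 1 := by
    intro F u
    set v : 𝓕 → K := fun f => s.Λ (PP (Af f.1)) (s.δ u) with hv
    have horth : ∀ f g : 𝓕, f ≠ g → inner ℂ (v f) (v g) = 0 := by
      intro f g hfg
      have h1 := hPP f.1 f.2 g.1 g.2 (fun h => hfg (Subtype.ext h))
      have h2 : inner ℂ (v f) (v g) = inner ℂ (s.δ u)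
          ((star (s.Λ (PP (Af f.1))) * s.Λ (PP (Af g.1))) (s.δ u)) := by
        show _ = inner ℂ (s.δ u) (star (s.Λ (PP (Af f.1))) (v g))
        rw [star_eq_adjoint, adjoint_inner_right]
      rw [h2, ← s.Λ_star, PP_star, h1]
      simp
    have h3 : inner ℂ (∑ f ∈ F, v f) (∑ f ∈ F, v f) = ((∑ f ∈ F, ‖v f‖ ^ 2 : ℝ) : ℂ) := by
      rw [sum_inner]
      push_cast
      refine Finset.sum_congr rfl fun f hf => ?_
      rw [inner_sum, Finset.sum_eq_single f]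
      · rw [inner_self_eq_norm_sq_to_K]; rfl
      · intro g _ hgf
        exact horth f g hgf.symm
      · intro h; exact absurd hf h
    have h4 : inner ℂ (s.δ u) (∑ f ∈ F, v f) = ((∑ f ∈ F, ‖v f‖ ^ 2 : ℝ) : ℂ) := by
      rw [inner_sum]
      push_cast
      refine Finset.sum_congr rfl fun f hf => ?_
      rw [hE]; push_cast; rfl
    have h5 := norm_sub_sq (𝕜 := ℂ) (s.δ u) (∑ f ∈ F, v f)
    rw [h4, s.δ_norm] at h5
    have h6 : ‖∑ f ∈ F, v f‖ ^ 2 = ∑ f ∈ F, ‖v f‖ ^ 2 := by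
      have h8 : ((‖∑ f ∈ F, v f‖ ^ 2 : ℝ) : ℂ) = ((∑ f ∈ F, ‖v f‖ ^ 2 : ℝ) : ℂ) := by
        rw [← h3, inner_self_eq_norm_sq_to_K]
        push_cast; rfl
      exact Complex.ofReal_injective h8
    rw [h6] at h5
    have h7 : RCLike.re (((∑ f ∈ F, ‖v f‖ ^ 2 : ℝ) : ℂ)) = ∑ f ∈ F, ‖v f‖ ^ 2 :=
      Complex.ofReal_re _
    rw [h7] at h5
    have := sq_nonneg ‖s.δ u - ∑ f ∈ F, v f‖
    linarith
  set C : 𝓕 → C(X, ℂ) := fun f => ⟨fun u => ((‖s.Λ (PP (Af f.1)) (s.δ u)‖ : ℝ) : ℂ),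
    Complex.continuous_ofReal.comp (s.norm_cont _)⟩ with hC
  have hw : ∀ (i : I) (F : Finset 𝓕), ∑ f ∈ F, ‖s.ι (C f) (dl i)‖ ^ 2 ≤ 1 := by
    intro i F
    have h1 : ∀ f : 𝓕, ((‖s.ι (C f) (dl i)‖ ^ 2 : ℝ) : ℂ) =
        inner ℂ (dl i) (s.ι (star (C f) * C f) (dl i)) := by
      intro f
      rw [map_mul, map_star]
      show _ = inner ℂ (dl i) (star (s.ι (C f)) (s.ι (C f) (dl i)))
      rw [star_eq_adjoint, adjoint_inner_right, inner_self_eq_norm_sq_to_K]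
      push_cast; rfl
    have h2 : ((∑ f ∈ F, ‖s.ι (C f) (dl i)‖ ^ 2 : ℝ) : ℂ) =
        inner ℂ (dl i) (s.ι (∑ f ∈ F, star (C f) * C f) (dl i)) := by
      rw [map_sum, sum_apply, inner_sum]
      push_cast
      refine Finset.sum_congr rfl fun f _ => ?_
      rw [← h1]; push_cast; rfl
    have h3 : ‖∑ f ∈ F, star (C f) * C f‖ ≤ 1 := by
      rw [ContinuousMap.norm_le _ zero_le_one]
      intro u
      have h4 : (∑ f ∈ F, star (C f) * C f) u =
          ((∑ f ∈ F, ‖s.Λ (PP (Af f.1)) (s.δ u)‖ ^ 2 : ℝ) : ℂ) := by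
        rw [ContinuousMap.coe_sum, Finset.sum_apply]
        push_cast
        refine Finset.sum_congr rfl fun f _ => ?_
        show (starRingEnd ℂ) ((‖s.Λ (PP (Af f.1)) (s.δ u)‖ : ℝ) : ℂ) *
          ((‖s.Λ (PP (Af f.1)) (s.δ u)‖ : ℝ) : ℂ) = _
        rw [Complex.conj_ofReal]; ring
      rw [h4, Complex.norm_real, Real.norm_of_nonneg (Finset.sum_nonneg fun _ _ => by positivity)]
      exact hsum F u
    have h5 : ‖s.ι (∑ f ∈ F, star (C f) * C f)‖ ≤ 1 :=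
      (NonUnitalStarAlgHom.norm_apply_le s.ι _).trans h3
    have h6 := norm_inner_le_norm (𝕜 := ℂ) (dl i) (s.ι (∑ f ∈ F, star (C f) * C f) (dl i))
    rw [← h2, norm_dl, one_mul, Complex.norm_real,
      Real.norm_of_nonneg (Finset.sum_nonneg fun _ _ => by positivity)] at h6
    have h7 := (s.ι (∑ f ∈ F, star (C f) * C f)).le_opNorm (dl i)
    rw [norm_dl, mul_one] at h7
    linarith
  have hcount : ∀ i : I, {f : 𝓕 | s.ι (C f) (dl i) ≠ 0}.Countable := by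
    intro i
    have h1 : Summable fun f : 𝓕 => ‖s.ι (C f) (dl i)‖ ^ 2 :=
      summable_of_sum_le (fun f => by positivity) (hw i)
    have h2 := h1.countable_support
    refine h2.mono ?_
    intro f hf
    rw [Function.mem_support]
    have : 0 < ‖s.ι (C f) (dl i)‖ := norm_pos_iff.2 hf
    positivity
  obtain ⟨f, hf⟩ : ∃ f : 𝓕, ∀ i ∈ A, s.ι (C f) (dl i) = 0 := by
    by_contra hcon
    push Not at hcon
    have h1 : (Set.univ : Set 𝓕) ⊆ ⋃ i ∈ A, {f : 𝓕 | s.ι (C f) (dl i) ≠ 0} := by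
      intro f _
      obtain ⟨i, hi, hi'⟩ := hcon f
      exact Set.mem_biUnion hi hi'
    have h2 := (mk_le_mk_of_subset h1).trans (mk_biUnion_le _ _)
    rw [mk_univ] at h2
    have h3 : (⨆ x : A, #{f : 𝓕 | s.ι (C f) (dl x.1) ≠ 0}) ≤ ℵ₀ :=
      ciSup_le' fun x => (hcount x.1).le_aleph0
    have h4 : #𝓕 ≤ κ := by
      refine h2.trans ?_
      refine (mul_le_mul' (le_refl (#A)) h3).trans ?_
      rw [mul_aleph0_eq hinf]
    exact absurd h𝓕c (not_lt.2 h4)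
  have hz : s.ι (C f) * PP (Af f.1) = 0 := by
    apply op_ext
    intro i
    show s.ι (C f) (PP (Af f.1) (dl i)) = 0
    by_cases hi : i ∈ Af f.1
    · rw [PP_dl _ _ hi, hf i (hAfA _ hi)]
    · rw [PP_dl_ne _ _ hi, map_zero]
  apply hP0 f.1
  apply s.faith
  intro u
  have h1 := s.E_left (C f) (PP (Af f.1)) u
  rw [hz, map_zero, hE] at h1
  have h2 : (0 : ℂ) = ((‖s.Λ (PP (Af f.1)) (s.δ u)‖ ^ 3 : ℝ) : ℂ) := by
    have h3 : C f u = ((‖s.Λ (PP (Af f.1)) (s.δ u)‖ : ℝ) : ℂ) := rfl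
    rw [h3] at h1
    simp only [zero_apply, inner_zero_right] at h1
    rw [h1]; push_cast; ring
  have h3 : ‖s.Λ (PP (Af f.1)) (s.δ u)‖ ^ 3 = 0 := by exact_mod_cast h2.symm
  exact norm_eq_zero.1 (pow_eq_zero_iff (by norm_num) |>.1 h3)

end A

end Sit

end Pool.Agent.R293.TG
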