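import Pool.Agent.R293.TG.CaseA

/-!
MP_8a69f9_an: the regular representation is not faithful.
-/

set_option autoImplicit false
set_option linter.unusedSectionVars false

open Topology Filter Cardinal

namespace Pool.Agent.R293.TG

open Pool.Agent.W657.TG ContinuousLinearMap

universe u

/-- rank one operators -/
noncomputable def RR {H : Type u} [NormedAddCommGroup H] [InnerProductSpace ℂ H] (x y : H) :
    H →L[ℂ] H := InnerProductSpace.rankOne ℂ x y

section RR

variable {H : Type u} [NormedAddCommGroup H] [InnerProductSpace ℂ H]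

theorem RR_apply (x y z : H) : RR x y z = (inner ℂ y z : ℂ) • x :=
  InnerProductSpace.rankOne_apply x y z

theorem mul_RR (a : H →L[ℂ] H) (x y : H) : a * RR x y = RR (a x) y := by
  ext z
  show a (RR x y z) = _
  rw [RR_apply, RR_apply, map_smul]

theorem RR_mul [CompleteSpace H] (a : H →L[ℂ] H) (x y : H) : RR x y * a = RR x (star a y) := by
  ext z
  show RR x y (a z) = _
  rw [RR_apply, RR_apply, star_eq_adjoint, adjoint_inner_left]

theorem star_RR [CompleteSpace H] (x y : H) : star (RR x y) = RR y x := by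
  ext1 z
  apply ext_inner_left ℂ
  intro w
  rw [star_eq_adjoint, adjoint_inner_right, RR_apply, RR_apply, inner_smul_left, inner_smul_right,
    inner_conj_symm]
  ring

theorem RR_mul_RR (x y z w : H) : RR x y * RR z w = (inner ℂ y z : ℂ) • RR x w := by
  ext v
  show RR x y (RR z w v) = (inner ℂ y z : ℂ) • (RR x w v)
  rw [RR_apply, RR_apply, RR_apply, inner_smul_right, smul_smul, mul_comm]

theorem norm_RR_le (x y : H) : ‖RR x y‖ ≤ ‖x‖ * ‖y‖ := by
  apply ContinuousLinearMap.opNorm_le_bound _ (by positivity)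
  intro z
  rw [RR_apply, norm_smul]
  have := norm_inner_le_norm (𝕜 := ℂ) y z
  have h2 := norm_nonneg x
  nlinarith

end RR

namespace Sit

theorem bessel {B X K : Type u} [CStarAlgebra B] [TopologicalSpace X] [NormedAddCommGroup K]
    [InnerProductSpace ℂ K] [CompleteSpace K] (s : Sit B X K) {J : Type*} (a : J → B)
    (h1 : ∀ f, star (a f) = a f) (h2 : ∀ f, a f * a f = a f)
    (h3 : ∀ f g, f ≠ g → s.Λ (a f) * s.Λ (a g) = 0) (F : Finset J) (u : X) :
    ∑ f ∈ F, ‖s.Λ (a f) (s.δ u)‖ ^ 2 ≤ 1 := by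
  classical
  set v : J → K := fun f => s.Λ (a f) (s.δ u) with hv
  have hE : ∀ f, inner ℂ (s.δ u) (v f) = ((‖v f‖ ^ 2 : ℝ) : ℂ) := by
    intro f
    have := s.E_sq (a f) u
    rw [h1, h2] at this
    exact this
  have horth : ∀ f g, f ≠ g → inner ℂ (v f) (v g) = 0 := by
    intro f g hfg
    have h2' : inner ℂ (v f) (v g) = inner ℂ (s.δ u) ((star (s.Λ (a f)) * s.Λ (a g)) (s.δ u)) := by
      show _ = inner ℂ (s.δ u) (star (s.Λ (a f)) (v g))
      rw [star_eq_adjoint, adjoint_inner_right]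
    rw [h2', ← s.Λ_star, h1, h3 f g hfg]
    simp
  have h3' : inner ℂ (∑ f ∈ F, v f) (∑ f ∈ F, v f) = ((∑ f ∈ F, ‖v f‖ ^ 2 : ℝ) : ℂ) := by
    rw [sum_inner]
    push_cast
    refine Finset.sum_congr rfl fun f hf => ?_
    rw [inner_sum, Finset.sum_eq_single f]
    · rw [inner_self_eq_norm_sq_to_K]; rfl
    · intro g _ hgf
      exact horth f g hgf.symm
    · intro h; exact absurd hf h
  have h4 : inner ℂ (s.δ u) (∑ f ∈ F, v f) = ((∑ f ∈ F, ‖v f‖ ^ 2 : ℝ) : ℂ) := by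
    rw [inner_sum]
    push_cast
    refine Finset.sum_congr rfl fun f hf => ?_
    rw [hE]; push_cast; rfl
  have h5 := norm_sub_sq (𝕜 := ℂ) (s.δ u) (∑ f ∈ F, v f)
  rw [h4, s.δ_norm] at h5
  have h6 : ‖∑ f ∈ F, v f‖ ^ 2 = ∑ f ∈ F, ‖v f‖ ^ 2 := by
    have h8 : ((‖∑ f ∈ F, v f‖ ^ 2 : ℝ) : ℂ) = ((∑ f ∈ F, ‖v f‖ ^ 2 : ℝ) : ℂ) := by
      rw [← h3', inner_self_eq_norm_sq_to_K]
      push_cast; rfl
    exact Complex.ofReal_injective h8
  rw [h6] at h5
  have h7 : RCLike.re (((∑ f ∈ F, ‖v f‖ ^ 2 : ℝ) : ℂ)) = ∑ f ∈ F, ‖v f‖ ^ 2 :=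
    Complex.ofReal_re _
  rw [h7] at h5
  have := sq_nonneg ‖s.δ u - ∑ f ∈ F, v f‖
  linarith

section B

variable {I X K : Type u} [TopologicalSpace X] [CompactSpace X] [T2Space X]
    [NormedAddCommGroup K] [InnerProductSpace ℂ K] [CompleteSpace K]
    (s : Sit (l2 I →L[ℂ] l2 I) X K)

theorem RR_eq_PP (i : I) : RR (dl i) (dl i) = PP {i} := by
  classical
  apply op_ext
  intro k
  rw [RR_apply, inner_dl]
  by_cases h : i = k
  · subst h
    rw [dl_self, one_smul, PP_dl _ _ (Set.mem_singleton _)]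
  · rw [dl_ne h, zero_smul, PP_dl_ne]
    exact fun h' => h h'.symm

/-- injectivity -/
theorem inj (hpp : ∀ i, s.Λ (PP {i}) ≠ 0) (a : l2 I →L[ℂ] l2 I) (ha : s.Λ a = 0) : a = 0 := by
  apply op_ext
  intro i
  apply lp.ext
  funext k
  by_contra hne
  have h1 : RR (dl k) (dl k) * a * RR (dl i) (dl k) =
      ((a (dl i)) k : ℂ) • RR (dl k) (dl k) := by
    rw [mul_assoc, mul_RR, RR_mul_RR, inner_dl]
  apply hpp k
  have h2 : s.Λ (RR (dl k) (dl k) * a * RR (dl i) (dl k)) = 0 := by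
    rw [s.Λ_mul, s.Λ_mul, ha, mul_zero, zero_mul]
  rw [h1, map_smul, RR_eq_PP] at h2
  exact (smul_eq_zero.1 h2).resolve_left hne

/-- the function of a rank one projection -/
theorem E_RR {ξ : l2 I} (hξ : ‖ξ‖ = 1) (u : X) : inner ℂ (s.δ u) (s.Λ (RR ξ ξ) (s.δ u)) =
    ((‖s.Λ (RR ξ ξ) (s.δ u)‖ ^ 2 : ℝ) : ℂ) := by
  have := s.E_sq (RR ξ ξ) u
  rw [star_RR, RR_mul_RR, inner_self_eq_norm_sq_to_K, hξ] at this
  simpa using this

theorem exists_iso (hinj : ∀ a, s.Λ a = 0 → a = 0) {ξ : l2 I} (hξ : ‖ξ‖ = 1) :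
    ∃ u : X, IsOpen ({u} : Set X) ∧ s.Λ (RR ξ ξ) (s.δ u) ≠ 0 := by
  classical
  have hne : s.Λ (RR ξ ξ) ≠ 0 := by
    intro h
    have h1 := hinj _ h
    have h2 : RR ξ ξ ξ = ξ := by
      rw [RR_apply, inner_self_eq_norm_sq_to_K, hξ]; simp
    rw [h1] at h2
    have h3 : ξ = 0 := h2.symm
    rw [h3, norm_zero] at hξ
    exact zero_ne_one hξ
  obtain ⟨u1, hu1⟩ : ∃ u, s.Λ (RR ξ ξ) (s.δ u) ≠ 0 := by
    by_contra hcon
    push Not at hcon
    exact hne (s.faith _ hcon)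
  set c : ℝ := ‖s.Λ (RR ξ ξ) (s.δ u1)‖ ^ 2 / 2 with hc
  have hcpos : 0 < c := by
    have : 0 < ‖s.Λ (RR ξ ξ) (s.δ u1)‖ := norm_pos_iff.2 hu1
    positivity
  set V : Set X := {u | c < ‖s.Λ (RR ξ ξ) (s.δ u)‖ ^ 2} with hV
  have hVo : IsOpen V := isOpen_lt continuous_const ((s.norm_cont _).pow 2)
  have hu1V : u1 ∈ V := by
    show c < _
    linarith
  have hVfin : V.Finite := by
    by_contra hinf
    obtain ⟨n, hn⟩ := exists_nat_gt (1 / c)
    obtain ⟨t, htV, htc⟩ := Set.Infinite.exists_subset_card_eq hinf n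
    obtain ⟨W, hW, hWd⟩ := (t.finite_toSet).t2_separation
    have hex : ∀ u : X, ∃ h : C(X, ℝ), h u = 1 ∧ (∀ x ∉ W u, h x = 0) ∧ ∀ x, h x ∈ Set.Icc (0 : ℝ) 1 := by
      intro u
      obtain ⟨h, h0, h1, h2⟩ := exists_continuous_zero_one_of_isClosed (s := (W u)ᶜ) (t := {u})
        (hW u).2.isClosed_compl isClosed_singleton (by
          rw [Set.disjoint_singleton_right]
          exact fun h => h (hW u).1)
      exact ⟨h, h1 (Set.mem_singleton u), fun x hx => h0 hx, h2⟩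
    choose h hh1 hh0 hhI using hex
    set D : X → C(X, ℂ) := fun u => ⟨fun x => ((h u x : ℝ) : ℂ),
      Complex.continuous_ofReal.comp (h u).continuous⟩ with hD
    have hDstar : ∀ u, star (D u) = D u := by
      intro u
      ext x
      show (starRingEnd ℂ) ((h u x : ℝ) : ℂ) = ((h u x : ℝ) : ℂ)
      rw [Complex.conj_ofReal]
    have hbig : ∀ u ∈ t, c < ‖s.ι (D u) ξ‖ ^ 2 := by
      intro u hu
      have h1 : s.ι (D u) * RR ξ ξ * s.ι (D u) = RR (s.ι (D u) ξ) (s.ι (D u) ξ) := by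
        rw [mul_RR, RR_mul, ← map_star, hDstar]
      have h2 := s.E_right (D u) (s.ι (D u) * RR ξ ξ) u
      rw [s.E_left, s.E_RR hξ, h1] at h2
      have h3 : D u u = 1 := by
        show ((h u u : ℝ) : ℂ) = 1
        rw [hh1]; simp
      rw [h3, one_mul, one_mul] at h2
      have h4 := norm_inner_le_norm (𝕜 := ℂ) (s.δ u)
        (s.Λ (RR (s.ι (D u) ξ) (s.ι (D u) ξ)) (s.δ u))
      rw [h2, s.δ_norm, one_mul, Complex.norm_real, Real.norm_of_nonneg (by positivity)] at h4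
      have h5 := s.Λ_le (RR (s.ι (D u) ξ) (s.ι (D u) ξ)) u
      have h6 := norm_RR_le (s.ι (D u) ξ) (s.ι (D u) ξ)
      have h7 : c < ‖s.Λ (RR ξ ξ) (s.δ u)‖ ^ 2 := htV hu
      nlinarith
    have hsum : ∑ u ∈ t, ‖s.ι (D u) ξ‖ ^ 2 ≤ 1 := by
      have h1 : ∀ u, ((‖s.ι (D u) ξ‖ ^ 2 : ℝ) : ℂ) = inner ℂ ξ (s.ι (D u * D u) ξ) := by
        intro u
        conv_rhs => rw [← hDstar u]
        rw [hDstar u, map_mul]
        show _ = inner ℂ ξ (s.ι (D u) (s.ι (D u) ξ))
        have h2 : s.ι (D u) = star (s.ι (D u)) := by rw [← map_star, hDstar]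
        conv_rhs => rw [h2]
        rw [star_eq_adjoint, adjoint_inner_right, ← star_eq_adjoint, ← h2,
          inner_self_eq_norm_sq_to_K]
        push_cast; rfl
      have h2 : ((∑ u ∈ t, ‖s.ι (D u) ξ‖ ^ 2 : ℝ) : ℂ) =
          inner ℂ ξ (s.ι (∑ u ∈ t, D u * D u) ξ) := by
        rw [map_sum, sum_apply, inner_sum]
        push_cast
        refine Finset.sum_congr rfl fun f _ => ?_
        rw [← h1]; push_cast; rfl
      have h3 : ‖∑ u ∈ t, D u * D u‖ ≤ 1 := by
        rw [ContinuousMap.norm_le _ zero_le_one]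
        intro x
        have h4 : (∑ u ∈ t, D u * D u) x = ((∑ u ∈ t, h u x ^ 2 : ℝ) : ℂ) := by
          rw [ContinuousMap.coe_sum, Finset.sum_apply]
          push_cast
          refine Finset.sum_congr rfl fun f _ => ?_
          show ((h f x : ℝ) : ℂ) * ((h f x : ℝ) : ℂ) = _
          ring
        rw [h4, Complex.norm_real, Real.norm_of_nonneg (Finset.sum_nonneg fun _ _ => by positivity)]
        by_cases hx : ∃ u ∈ t, x ∈ W u
        · obtain ⟨u, hu, hxu⟩ := hx
          rw [Finset.sum_eq_single u]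
          · have := hhI u x
            nlinarith [this.1, this.2]
          · intro v hv hvu
            have : x ∉ W v := fun hxv =>
              Set.disjoint_left.1 (hWd (Finset.mem_coe.2 hu) (Finset.mem_coe.2 hv) hvu.symm) hxu hxv
            rw [hh0 v x this]; norm_num
          · intro h'; exact absurd hu h'
        · push Not at hx
          rw [Finset.sum_eq_zero]
          · exact zero_le_one
          · intro v hv
            rw [hh0 v x (hx v hv)]; norm_num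
      have h5 : ‖s.ι (∑ u ∈ t, D u * D u)‖ ≤ 1 :=
        (NonUnitalStarAlgHom.norm_apply_le s.ι _).trans h3
      have h6 := norm_inner_le_norm (𝕜 := ℂ) ξ (s.ι (∑ u ∈ t, D u * D u) ξ)
      rw [← h2, hξ, one_mul, Complex.norm_real,
        Real.norm_of_nonneg (Finset.sum_nonneg fun _ _ => by positivity)] at h6
      have h7 := (s.ι (∑ u ∈ t, D u * D u)).le_opNorm ξ
      rw [hξ, mul_one] at h7
      linarith
    have h8 : (n : ℝ) * c ≤ ∑ u ∈ t, ‖s.ι (D u) ξ‖ ^ 2 := by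
      rw [← htc, ← nsmul_eq_mul]
      exact Finset.card_nsmul_le_sum _ _ _ fun u hu => (hbig u hu).le
    have h9 : 1 < (n : ℝ) * c := by
      rw [div_lt_iff₀ hcpos] at hn
      exact hn
    linarith
  refine ⟨u1, ?_, hu1⟩
  have h1 : ({u1} : Set X) = V \ (V \ {u1}) := by
    ext x
    constructor
    · rintro rfl
      exact ⟨hu1V, fun h => h.2 rfl⟩
    · rintro ⟨h, h'⟩
      by_contra hne'
      exact h' ⟨h, hne'⟩
  rw [h1]
  exact hVo.sdiff (hVfin.subset Set.sdiff_subset).isClosed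

end B

end Sit

end Pool.Agent.R293.TG
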