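import Pool.Agent.W657.TG.Reg

/-!
MP_8a69f9_an: twisted convolution.
-/

set_option autoImplicit false

open Topology Filter

namespace Pool.Agent.R293.TG

open Pool.Agent.W657.TG

universe u

section fibre

variable {G X T : Type u} [TopologicalSpace G] [TopologicalSpace X] [TopologicalSpace T]
  [T2Space G] [T2Space X]

open Classical in
theorem continuous_fibre_sum {f : G → X} (hf : IsLocalHomeomorph f) {x : T → X}
    (hx : Continuous x) {F : G → T → ℂ}
    (hF : ContinuousOn (fun p : G × T => F p.1 p.2) {p | f p.1 = x p.2})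
    {C : Set G} (hC : IsCompact C) (h0 : ∀ g t, f g = x t → g ∉ C → F g t = 0) :
    Continuous fun t => ∑' g, if f g = x t then F g t else 0 := by
  rw [continuous_iff_continuousAt]
  intro t0
  obtain ⟨N, hN⟩ := TopGpd.finite_fibre hf hC
  have hfin : {g ∈ C | f g = x t0}.Finite := (hN (x t0)).1
  set A : Finset G := hfin.toFinset with hA
  have memA : ∀ g, g ∈ A ↔ g ∈ C ∧ f g = x t0 := fun g => by
    rw [hA, Set.Finite.mem_toFinset]; rfl
  obtain ⟨W, hW, hWd⟩ := hfin.t2_separation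
  have hloc : ∀ g : G, ∃ e : OpenPartialHomeomorph G X, g ∈ e.source ∧ f = e := fun g => hf g
  choose e he hes using hloc
  set U : G → Set G := fun g => (e g).source ∩ W g with hU
  have hUo : ∀ g, IsOpen (U g) := fun g => (e g).open_source.inter (hW g).2
  have hUm : ∀ g, g ∈ U g := fun g => ⟨he g, (hW g).1⟩
  set K : Set G := C \ ⋃ g ∈ A, U g with hK
  have hKc : IsCompact K := hC.diff (isOpen_biUnion fun g _ => hUo g)
  have hKf : IsClosed (f '' K) := (hKc.image hf.continuous).isClosed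
  have hKx : x t0 ∉ f '' K := by
    rintro ⟨k, hk, hk'⟩
    apply hk.2
    exact Set.mem_biUnion ((memA k).2 ⟨hk.1, hk'⟩) (hUm k)
  set sg : G → T → G := fun g t => (e g).symm (x t) with hsg
  have hval : ∀ g ∈ A, sg g t0 = g := by
    intro g hg
    show (e g).symm (x t0) = g
    rw [← ((memA g).1 hg).2, congrFun (hes g) g]
    exact (e g).left_inv (he g)
  have htgt : ∀ g ∈ A, x t0 ∈ (e g).target := by
    intro g hg
    rw [← ((memA g).1 hg).2, congrFun (hes g) g]
    exact (e g).map_source (he g)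
  have hsc : ∀ g ∈ A, ContinuousAt (sg g) t0 := by
    intro g hg
    exact ((e g).continuousAt_symm (htgt g hg)).comp hx.continuousAt
  -- good neighbourhood
  have ev1 : ∀ᶠ t in 𝓝 t0, ∀ g ∈ A, x t ∈ (e g).target := by
    rw [eventually_all_finset]
    intro g hg
    exact hx.continuousAt.eventually ((e g).open_target.mem_nhds (htgt g hg))
  have ev2 : ∀ᶠ t in 𝓝 t0, ∀ g ∈ A, sg g t ∈ W g := by
    rw [eventually_all_finset]
    intro g hg
    refine (hsc g hg).eventually ((hW g).2.mem_nhds ?_)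
    rw [hval g hg]
    exact (hW g).1
  have ev3 : ∀ᶠ t in 𝓝 t0, x t ∉ f '' K :=
    hx.continuousAt.eventually (hKf.isOpen_compl.mem_nhds hKx)
  have hfs : ∀ t, ∀ g, x t ∈ (e g).target → f (sg g t) = x t := by
    intro t g h
    show f ((e g).symm (x t)) = x t
    rw [congrFun (hes g)]
    exact (e g).right_inv h
  have key : ∀ᶠ t in 𝓝 t0, (∑ g ∈ A, F (sg g t) t) = ∑' g, if f g = x t then F g t else 0 := by
    filter_upwards [ev1, ev2, ev3] with t h1 h2 h3
    have hinj : Set.InjOn (fun g => sg g t) (A : Set G) := by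
      intro g hg g' hg' h
      by_contra hne
      have hd := hWd ((memA g).1 hg) ((memA g').1 hg') hne
      have h4 : sg g t ∈ W g' := by
        have : sg g t = sg g' t := h
        rw [this]
        exact h2 g' hg'
      exact Set.disjoint_left.1 hd (h2 g hg) h4
    rw [tsum_eq_sum (s := A.image fun g => sg g t)]
    · rw [Finset.sum_image hinj]
      refine Finset.sum_congr rfl fun g hg => ?_
      rw [if_pos (hfs t g (h1 g hg))]
    · intro γ hγ
      split_ifs with hfγ
      · by_contra hne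
        have hγC : γ ∈ C := by
          by_contra hc
          exact hne (h0 γ t hfγ hc)
        have hγU : γ ∈ ⋃ g ∈ A, U g := by
          by_contra hu
          exact h3 ⟨γ, ⟨hγC, hu⟩, hfγ⟩
        obtain ⟨g, hg, hgU⟩ := Set.mem_iUnion₂.1 hγU
        apply hγ
        rw [Finset.mem_image]
        refine ⟨g, hg, ?_⟩
        show (e g).symm (x t) = γ
        rw [← hfγ, congrFun (hes g) γ]
        exact (e g).left_inv hgU.1
      · rfl
  refine ContinuousAt.congr ?_ key
  refine tendsto_finsetSum _ fun g hg => ?_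
  have h1 : Tendsto (fun t => (sg g t, t)) (𝓝 t0) (𝓝[{p : G × T | f p.1 = x p.2}] (g, t0)) := by
    rw [tendsto_nhdsWithin_iff]
    constructor
    · have h4 : Tendsto (fun t => (sg g t, t)) (𝓝 t0) (𝓝 (sg g t0, t0)) :=
        (hsc g hg).prodMk continuousAt_id
      rw [hval g hg] at h4
      exact h4
    · filter_upwards [ev1] with t h1
      exact hfs t g (h1 g hg)
  have h2 := hF (g, t0) ((memA g).1 hg).2
  have h3 := h2.tendsto.comp h1
  rw [hval g hg]
  exact h3

end fibre

section conv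

variable {X G S : Type u} [TopologicalSpace X] [TopologicalSpace G] [TopologicalSpace S]
  {𝒢 : TopGpd X G} (tw : Twist 𝒢 S)

open Classical in
/-- Twisted convolution: `(f ∗ g)(σ) = ∑_{γ ∈ G, r(γ) = r(σ)} f(σ_γ) g(σ_γ⁻¹ σ)`, where
`σ_γ ∈ Σ` is any lift of `γ`. -/
noncomputable def conv (f g : S → ℂ) (σ : S) : ℂ :=
  ∑' γ : G, if 𝒢.r γ = tw.gpd.r σ then
    f (tw.lift γ) * g (tw.gpd.mul (tw.gpd.inv (tw.lift γ)) σ) else 0

/-- The involution `f*(σ) = conj (f(σ⁻¹))`. -/
noncomputable def invo (f : S → ℂ) (σ : S) : ℂ := (starRingEnd ℂ) (f (tw.gpd.inv σ))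

variable {tw}

theorem conj_circle (z : Circle) :
    (starRingEnd ℂ) (z : ℂ) * (starRingEnd ℂ) ((z⁻¹ : Circle) : ℂ) = 1 := by
  rw [← map_mul, ← Circle.coe_mul, mul_inv_cancel, Circle.coe_one, map_one]

theorem term_inv {f g : S → ℂ} (hf : tw.IsSection f) (hg : tw.IsSection g) {τ τ' σ : S}
    (h : tw.proj τ = tw.proj τ') (e : tw.gpd.r τ = tw.gpd.r σ) :
    f τ' * g (tw.gpd.mul (tw.gpd.inv τ') σ) = f τ * g (tw.gpd.mul (tw.gpd.inv τ) σ) := by
  obtain ⟨z, rfl⟩ := tw.exists_act h.symm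
  rw [hf.equivariant, tw.inv_act, tw.mul_act_left _ (by rw [tw.gpd.s_inv, e]), hg.equivariant]
  have := conj_circle z
  linear_combination (f τ * g (tw.gpd.mul (tw.gpd.inv τ) σ)) * this

theorem continuousOn_term {f g : S → ℂ} (hf : tw.IsSection f) (hg : tw.IsSection g) :
    ContinuousOn (fun p : G × S => f (tw.lift p.1) *
      g (tw.gpd.mul (tw.gpd.inv (tw.lift p.1)) p.2)) {p | 𝒢.r p.1 = tw.gpd.r p.2} := by
  rintro ⟨γ, σ⟩ (h : 𝒢.r γ = tw.gpd.r σ)
  have hc : ContinuousOn (fun p : S × S => f p.1 * g (tw.gpd.mul (tw.gpd.inv p.1) p.2))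
      {p | tw.gpd.r p.1 = tw.gpd.r p.2} := by
    refine ContinuousOn.mul (hf.continuous.comp continuous_fst).continuousOn ?_
    refine hg.continuous.comp_continuousOn ?_
    have h1 : ContinuousOn (fun p : S × S => ((tw.gpd.inv p.1, p.2) : S × S))
        {p | tw.gpd.r p.1 = tw.gpd.r p.2} :=
      ((tw.gpd.continuous_inv.comp continuous_fst).prodMk continuous_snd).continuousOn
    exact tw.gpd.continuous_mul.comp h1 (fun p hp => by
      show tw.gpd.s (tw.gpd.inv p.1) = tw.gpd.r p.2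
      rw [tw.gpd.s_inv]; exact hp)
  have hP : IsOpenMap (Prod.map tw.proj id : S × S → G × S) := tw.isOpenMap_proj.prodMap IsOpenMap.id
  rw [ContinuousWithinAt, tendsto_def]
  intro O hO
  have hr : tw.gpd.r (tw.lift γ) = tw.gpd.r σ := by rw [tw.r_lift, h]
  have h2 := hc (tw.lift γ, σ) hr
  rw [ContinuousWithinAt, tendsto_def] at h2
  obtain ⟨V, hVo, hVm, hV⟩ := mem_nhdsWithin.1 (h2 O hO)
  rw [mem_nhdsWithin]
  refine ⟨Prod.map tw.proj id '' V, hP _ hVo, ⟨(tw.lift γ, σ), hVm, ?_⟩, ?_⟩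
  · show (tw.proj (tw.lift γ), σ) = (γ, σ)
    rw [tw.proj_lift]
  · rintro ⟨γ', σ'⟩ ⟨⟨⟨τ, σ''⟩, hτ, he⟩, (hr' : 𝒢.r γ' = tw.gpd.r σ')⟩
    have e1 : tw.proj τ = γ' := congrArg Prod.fst he
    have e2 : σ'' = σ' := congrArg Prod.snd he
    subst e2
    have e3 : tw.gpd.r τ = tw.gpd.r σ'' := by rw [← tw.r_proj, e1, hr']
    have h3 : (τ, σ'') ∈ (fun p : S × S => f p.1 * g (tw.gpd.mul (tw.gpd.inv p.1) p.2)) ⁻¹' O :=
      hV ⟨hτ, e3⟩
    show f (tw.lift γ') * g (tw.gpd.mul (tw.gpd.inv (tw.lift γ')) σ'') ∈ O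
    rw [term_inv hf hg (τ := τ) (by rw [tw.proj_lift, e1]) e3]
    exact h3

/-- the convolution of two elements of `C_c(G, Σ)` -/
theorem isSection_conv [T2Space G] [T2Space S] (h𝒢 : 𝒢.Etale) {f g : S → ℂ} (hf : tw.IsSection f)
    (hg : tw.IsSection g) : tw.IsSection (conv tw f g) := by
  have : T2Space X := TopGpd.t2_units 𝒢
  refine ⟨?_, ?_, ?_⟩
  · refine continuous_fibre_sum h𝒢.2 (x := tw.gpd.r) tw.gpd.continuous_r
      (F := fun γ σ => f (tw.lift γ) * g (tw.gpd.mul (tw.gpd.inv (tw.lift γ)) σ))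
      (continuousOn_term hf hg) (C := tw.proj '' (tsupport f))
      (hf.hasCompactSupport.isCompact.image tw.continuous_proj) ?_
    intro γ σ _ hγ
    have : f (tw.lift γ) = 0 := by
      by_contra hne
      exact hγ ⟨tw.lift γ, subset_tsupport f hne, tw.proj_lift γ⟩
    show f (tw.lift γ) * _ = 0
    rw [this, zero_mul]
  · have hcl : IsClosed {p : S × S | tw.gpd.s p.1 = tw.gpd.r p.2} :=
      isClosed_eq (tw.gpd.continuous_s.comp continuous_fst) (tw.gpd.continuous_r.comp continuous_snd)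
    have hK : IsCompact ((tsupport f ×ˢ tsupport g) ∩ {p : S × S | tw.gpd.s p.1 = tw.gpd.r p.2}) :=
      (hf.hasCompactSupport.isCompact.prod hg.hasCompactSupport.isCompact).inter_right hcl
    refine HasCompactSupport.intro (K := (fun p : S × S => tw.gpd.mul p.1 p.2) ''
      ((tsupport f ×ˢ tsupport g) ∩ {p : S × S | tw.gpd.s p.1 = tw.gpd.r p.2}))
      (hK.image_of_continuousOn (tw.gpd.continuous_mul.mono Set.inter_subset_right)) ?_
    intro σ hσ
    unfold conv
    refine (tsum_congr fun γ => ?_).trans tsum_zero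
    split_ifs with h
    · by_contra hne
      apply hσ
      have h1 := left_ne_zero_of_mul hne
      have h2 := right_ne_zero_of_mul hne
      have e : tw.gpd.r (tw.lift γ) = tw.gpd.r σ := by rw [tw.r_lift, h]
      refine ⟨(tw.lift γ, tw.gpd.mul (tw.gpd.inv (tw.lift γ)) σ), ⟨⟨subset_tsupport f h1,
        subset_tsupport g h2⟩, ?_⟩, ?_⟩
      · show tw.gpd.s (tw.lift γ) = tw.gpd.r (tw.gpd.mul (tw.gpd.inv (tw.lift γ)) σ)
        rw [tw.gpd.r_mul _ _ (by rw [tw.gpd.s_inv, e]), tw.gpd.r_inv]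
      · exact TopGpd.mul_inv_cancel_left e
    · rfl
  · intro z σ
    unfold conv
    rw [← tsum_mul_left]
    refine tsum_congr fun γ => ?_
    rw [tw.r_act]
    split_ifs with h
    · rw [tw.mul_act_right _ (by rw [tw.gpd.s_inv, tw.r_lift, h]), hg.equivariant]
      ring
    · rw [mul_zero]

theorem isSection_invo {f : S → ℂ} (hf : tw.IsSection f) : tw.IsSection (invo tw f) := by
  refine ⟨?_, ?_, ?_⟩
  · exact Complex.continuous_conj.comp (hf.continuous.comp tw.gpd.continuous_inv)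
  · have hinv : Function.Involutive tw.gpd.inv := fun σ => TopGpd.inv_inv σ
    let e : S ≃ₜ S := ⟨hinv.toPerm, tw.gpd.continuous_inv, tw.gpd.continuous_inv⟩
    have h1 : HasCompactSupport (f ∘ e) := hf.hasCompactSupport.comp_homeomorph e
    exact h1.comp_left (g := (starRingEnd ℂ)) (map_zero _)
  · intro z σ
    unfold invo
    rw [tw.inv_act, hf.equivariant, map_mul, ← map_mul]
    have h := conj_circle z
    have h2 : (starRingEnd ℂ) ((z⁻¹ : Circle) : ℂ) = (z : ℂ) := by
      rw [Circle.coe_inv_eq_conj, Complex.conj_conj]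
    rw [h2, map_mul]

end conv

end Pool.Agent.R293.TG
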