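import Pool.Agent.R293.TG.Rep

/-!
MP_8a69f9_an: extension of the regular representation.
-/

set_option autoImplicit false

open Topology Filter

namespace Pool.Agent.R293.TG

open Pool.Agent.W657.TG

universe u

variable {X G S : Type u} [TopologicalSpace X] [TopologicalSpace G] [TopologicalSpace S]
  {𝒢 : TopGpd X G} {tw : Twist 𝒢 S}

/-- the space of sections -/
def SecM (tw : Twist 𝒢 S) : Submodule ℂ (S → ℂ) where
  carrier := {f | tw.IsSection f}
  add_mem' := fun hf hg => isSection_add hf hg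
  zero_mem' := isSection_zero
  smul_mem' := fun c _ hf => isSection_smul c hf

/-- the linear map on the space of sections -/
def linOf {B : Type*} [NonUnitalCStarAlgebra B] {j : (S → ℂ) → B} (hj : IsStarHom tw j) :
    SecM tw →ₗ[ℂ] B where
  toFun f := j f.1
  map_add' f g := hj.add f.1 g.1 f.2 g.2
  map_smul' c f := hj.smul c f.1 f.2

theorem exists_ext [T2Space G] [T2Space S] (h𝒢 : 𝒢.Etale)
    {B C : Type u} [NonUnitalCStarAlgebra B] [NonUnitalCStarAlgebra C]
    {j : (S → ℂ) → B} (hj : IsStarHom tw j) {k : (S → ℂ) → C} (hk : IsStarHom tw k)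
    (hd : closure (j '' {f | tw.IsSection f}) = Set.univ)
    (hn : ∀ f, tw.IsSection f → ‖k f‖ ≤ ‖j f‖) :
    ∃ Λ : B →L[ℂ] C, (∀ a, ‖Λ a‖ ≤ ‖a‖) ∧ (∀ f, tw.IsSection f → Λ (j f) = k f) ∧
      (∀ a b, Λ (a * b) = Λ a * Λ b) ∧ ∀ a, Λ (star a) = star (Λ a) := by
  have hdense : DenseRange (linOf hj) := by
    have : Set.range (linOf hj) = j '' {f | tw.IsSection f} := by
      ext b
      constructor
      · rintro ⟨f, rfl⟩
        exact ⟨f.1, f.2, rfl⟩
      · rintro ⟨f, hf, rfl⟩
        exact ⟨⟨f, hf⟩, rfl⟩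
    rw [DenseRange, this]
    exact dense_iff_closure_eq.2 hd
  have hnorm : ∀ f : SecM tw, ‖linOf hk f‖ ≤ 1 * ‖linOf hj f‖ := fun f => by
    rw [one_mul]
    exact hn f.1 f.2
  set Λ := (linOf hk).extendOfNorm (linOf hj) with hΛ
  have h1 : ∀ f, tw.IsSection f → Λ (j f) = k f := fun f hf =>
    LinearMap.extendOfNorm_eq hdense ⟨1, hnorm⟩ ⟨f, hf⟩
  have hcl : ∀ {s : Set B}, IsClosed s → (∀ f, tw.IsSection f → j f ∈ s) → ∀ b, b ∈ s := by
    intro s hs h b
    have h2 : closure (j '' {f | tw.IsSection f}) ⊆ s := by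
      apply closure_minimal _ hs
      rintro _ ⟨f, hf, rfl⟩
      exact h f hf
    rw [hd] at h2
    exact h2 trivial
  refine ⟨Λ, fun a => ?_, h1, ?_, ?_⟩
  · have := LinearMap.norm_extendOfNorm_apply_le hdense 1 hnorm a
    rwa [one_mul] at this
  · have h2 : ∀ f, tw.IsSection f → ∀ b, Λ (j f * b) = Λ (j f) * Λ b := by
      intro f hf
      apply hcl
      · exact isClosed_eq (Λ.continuous.comp (continuous_const.mul continuous_id))
          (continuous_const.mul Λ.continuous)
      · intro g hg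
        show Λ (j f * j g) = Λ (j f) * Λ (j g)
        rw [← hj.mul f g hf hg, h1 _ (isSection_conv h𝒢 hf hg), h1 _ hf, h1 _ hg, hk.mul f g hf hg]
    intro a b
    revert a
    apply hcl
    · exact isClosed_eq (Λ.continuous.comp (continuous_id.mul continuous_const))
        (Λ.continuous.mul continuous_const)
    · intro f hf
      exact h2 f hf b
  · apply hcl
    · exact isClosed_eq (Λ.continuous.comp continuous_star) (continuous_star.comp Λ.continuous)
    · intro f hf
      show Λ (star (j f)) = star (Λ (j f))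
      rw [← hj.star f hf, h1 _ (isSection_invo hf), h1 _ hf, hk.star f hf]

end Pool.Agent.R293.TG
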