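import Pool.Agent.R293.TG.Sit

/-!
MP_8a69f9_an: almost disjoint families, diagonal projections.
-/

set_option autoImplicit false

open Topology Filter Cardinal

namespace Pool.Agent.R293.TG

open Pool.Agent.W657.TG

universe u

/-- an almost disjoint family of more than `κ` functions -/
theorem exists_family (κ : Cardinal.{u}) (hκ : ℵ₀ ≤ κ) :
    ∃ 𝓕 : Set (κ.ord.ToType → κ.ord.ToType), κ < #𝓕 ∧
      ∀ f ∈ 𝓕, ∀ g ∈ 𝓕, f ≠ g → #{α | f α = g α} < κ := by
  classical
  set K := κ.ord.ToType with hK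
  have hKc : #K = κ := mk_ord_toType κ
  let good : Set (Set (K → K)) := {𝓕 | ∀ f ∈ 𝓕, ∀ g ∈ 𝓕, f ≠ g → #{α | f α = g α} < κ}
  obtain ⟨𝓕, h𝓕⟩ : ∃ 𝓕, Maximal (· ∈ good) 𝓕 := by
    apply zorn_subset
    intro c hc hchain
    refine ⟨⋃₀ c, ?_, fun s hs => Set.subset_sUnion_of_mem hs⟩
    rintro f ⟨s, hs, hfs⟩ g ⟨t, ht, hgt⟩ hne
    rcases hchain.total hs ht with h | h
    · exact hc ht f (h hfs) g hgt hne
    · exact hc hs f hfs g (h hgt) hne
  refine ⟨𝓕, ?_, h𝓕.1⟩
  by_contra hlt
  push Not at hlt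
  -- enumeration
  have hne : Nonempty K := by
    rw [← mk_ne_zero_iff, hKc]
    exact (aleph0_pos.trans_le hκ).ne'
  have hIio : ∀ α : K, #(Set.Iio α) < κ := fun α => mk_Iio_toType_ord_lt α
  have hIic : ∀ α : K, #(Set.Iic α) < κ := by
    intro α
    have : Set.Iic α ⊆ Set.Iio α ∪ {α} := by
      intro x hx
      rcases eq_or_lt_of_le (Set.mem_Iic.1 hx) with h | h
      · exact Or.inr h
      · exact Or.inl h
    refine (mk_le_mk_of_subset this).trans_lt ?_
    refine (mk_union_le _ _).trans_lt ?_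
    refine add_lt_of_lt hκ (hIio α) ?_
    rw [mk_singleton]
    exact one_lt_aleph0.trans_le hκ
  obtain ⟨e, he⟩ : ∃ e : K → (K → K), ∀ f ∈ 𝓕, ∃ α, e α = f := by
    have h1 : #𝓕 ≤ #K := by rw [hKc]; exact hlt
    obtain ⟨ι⟩ := h1
    refine ⟨fun α => if h : ∃ f : 𝓕, ι f = α then (Classical.choose h).1 else fun _ => α, ?_⟩
    intro f hf
    refine ⟨ι ⟨f, hf⟩, ?_⟩
    have h2 : ∃ g : 𝓕, ι g = ι ⟨f, hf⟩ := ⟨⟨f, hf⟩, rfl⟩
    beta_reduce
    rw [dif_pos h2]
    have := ι.injective (Classical.choose_spec h2)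
    rw [this]
  have hg : ∀ α : K, ∃ v : K, ∀ β < α, v ≠ e β α := by
    intro α
    by_contra hcon
    push Not at hcon
    have h1 : (Set.univ : Set K) ⊆ (fun β => e β α) '' (Set.Iio α) := by
      intro v _
      obtain ⟨β, hβ, hv⟩ := hcon v
      exact ⟨β, hβ, hv.symm⟩
    have h2 := (mk_le_mk_of_subset h1).trans mk_image_le
    rw [mk_univ, hKc] at h2
    exact absurd (hIio α) (not_lt.2 h2)
  choose g hg using hg
  have hge : ∀ β, #{α | g α = e β α} < κ := by
    intro β
    refine (mk_le_mk_of_subset ?_).trans_lt (hIic β)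
    intro α hα
    by_contra hlt'
    exact hg α β (not_le.1 hlt') hα
  have hg𝓕 : g ∉ 𝓕 := by
    intro hgm
    obtain ⟨β, hβ⟩ := he g hgm
    have := hge β
    rw [hβ] at this
    simp only [Set.ofPred_true, mk_univ, hKc] at this
    exact lt_irrefl _ this
  have hins : insert g 𝓕 ∈ good := by
    have hgf : ∀ f ∈ 𝓕, #{α | g α = f α} < κ := by
      intro f hf
      obtain ⟨β, rfl⟩ := he f hf
      exact hge β
    rintro f (rfl | hf) f' (rfl | hf') hne'
    · exact absurd rfl hne'
    · exact hgf f' hf'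
    · have := hgf f hf
      simp only [eq_comm] at this ⊢
      exact this
    · exact h𝓕.1 f hf f' hf' hne'
  exact hg𝓕 (h𝓕.2 hins (Set.subset_insert _ _) (Set.mem_insert _ _))

section proj

variable {I : Type u}

open Classical in
theorem exists_pcomp (A : Set I) (s : I → I) (hs : Set.InjOn s A) :
    ∃ T : l2 I →L[ℂ] l2 I, ∀ f x, (T f) x = if x ∈ A then f (s x) else 0 := by
  obtain ⟨T, -, hT⟩ := mk_op (X := I) (Y := I) (fun f x => if x ∈ A then f (s x) else 0)
    (fun f g y => by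
      show (if y ∈ A then f (s y) + g (s y) else 0) = _
      split_ifs
      · rfl
      · rw [add_zero]) (fun c f y => by
      show (if y ∈ A then c * f (s y) else 0) = _
      split_ifs
      · rfl
      · rw [mul_zero]) 1 zero_le_one (by
      intro f F
      rw [one_mul]
      have h1 : ∑ y ∈ F, ‖(if y ∈ A then f (s y) else 0 : ℂ)‖ ^ 2 =
          ∑ y ∈ F.filter (· ∈ A), ‖f (s y)‖ ^ 2 := by
        rw [Finset.sum_filter]
        refine Finset.sum_congr rfl fun y _ => ?_
        split_ifs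
        · rfl
        · simp
      rw [h1]
      have hinj : Set.InjOn s (F.filter (· ∈ A) : Finset I) := by
        intro x hx y hy hxy
        exact hs (Finset.mem_filter.1 hx).2 (Finset.mem_filter.1 hy).2 hxy
      have h2 := sumsq f ((F.filter (· ∈ A)).image s)
      rw [Finset.sum_image hinj] at h2
      exact h2)
  exact ⟨T, hT⟩

/-- diagonal projections -/
noncomputable def PP (A : Set I) : l2 I →L[ℂ] l2 I :=
  (exists_pcomp A id (Set.injOn_id A)).choose

open Classical in
theorem PP_apply (A : Set I) (f : l2 I) (x : I) : (PP A f) x = if x ∈ A then f x else 0 :=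
  (exists_pcomp A id (Set.injOn_id A)).choose_spec f x

theorem PP_mul (A B : Set I) : PP A * PP B = PP (A ∩ B) := by
  classical
  ext f x
  show (PP A (PP B f)) x = _
  rw [PP_apply, PP_apply, PP_apply]
  by_cases h1 : x ∈ A <;> by_cases h2 : x ∈ B <;> simp [h1, h2]

theorem PP_star (A : Set I) : star (PP A) = PP A := by
  classical
  apply op_ext
  intro η
  apply lp.ext
  funext γ
  rw [ContinuousLinearMap.star_eq_adjoint, adj_entry, PP_apply, PP_apply, dl_apply, dl_apply]
  by_cases h : γ = η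
  · subst h
    split_ifs <;> simp
  · rw [if_neg h, if_neg (Ne.symm h)]
    simp

theorem PP_univ : PP (Set.univ : Set I) = 1 := by
  classical
  ext f x
  rw [PP_apply, if_pos (Set.mem_univ _)]
  rfl

theorem PP_dl (A : Set I) (x : I) (h : x ∈ A) : PP A (dl x) = dl x := by
  classical
  apply lp.ext
  funext γ
  rw [PP_apply, dl_apply]
  by_cases h' : γ = x
  · subst h'; rw [if_pos h]
  · rw [if_neg h', ite_self]

theorem PP_dl_ne (A : Set I) (x : I) (h : x ∉ A) : PP A (dl x) = 0 := by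
  classical
  apply lp.ext
  funext γ
  rw [PP_apply, dl_apply]
  by_cases h' : γ = x
  · subst h'; rw [if_neg h]; rfl
  · rw [if_neg h', ite_self]; rfl

/-- equivalence of diagonal projections -/
theorem PP_equiv {A B : Set I} (h : #A ≤ #B) : ∃ V W : l2 I →L[ℂ] l2 I, W * PP B * V = PP A := by
  classical
  obtain ⟨e⟩ := h
  let s : I → I := fun x => if h : x ∈ A then (e ⟨x, h⟩).1 else x
  let t : I → I := fun y => if h : ∃ a : A, (e a).1 = y then (Classical.choose h).1 else y
  have hs : Set.InjOn s A := by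
    intro x hx y hy hxy
    simp only [s, dif_pos hx, dif_pos hy] at hxy
    have := e.injective (Subtype.ext hxy)
    exact congrArg Subtype.val this
  have hsB : ∀ x ∈ A, s x ∈ B := by
    intro x hx
    simp only [s, dif_pos hx]
    exact (e ⟨x, hx⟩).2
  have hts : ∀ x ∈ A, t (s x) = x := by
    intro x hx
    have h1 : ∃ a : A, (e a).1 = s x := ⟨⟨x, hx⟩, by simp only [s, dif_pos hx]⟩
    simp only [t, dif_pos h1]
    have h2 := Classical.choose_spec h1
    have h3 : (e (Classical.choose h1)).1 = (e ⟨x, hx⟩).1 := by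
      rw [h2]; simp only [s, dif_pos hx]
    have h4 := e.injective (Subtype.ext h3)
    rw [h4]
  have ht : Set.InjOn t (s '' A) := by
    rintro _ ⟨x, hx, rfl⟩ _ ⟨y, hy, rfl⟩ h
    rw [hts x hx, hts y hy] at h
    rw [h]
  obtain ⟨W, hW⟩ := exists_pcomp A s hs
  obtain ⟨V, hV⟩ := exists_pcomp (s '' A) t ht
  refine ⟨V, W, ?_⟩
  ext f x
  show (W (PP B (V f))) x = _
  rw [hW, PP_apply, PP_apply]
  by_cases hx : x ∈ A
  · rw [if_pos hx, if_pos hx, if_pos (hsB x hx), hV, if_pos ⟨x, hx, rfl⟩, hts x hx]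
  · rw [if_neg hx, if_neg hx]

end proj

end Pool.Agent.R293.TG
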