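import Pool.Agent.R293.TG.CaseB

/-!
MP_8a69f9_an: the final contradiction.
-/

set_option autoImplicit false
set_option linter.unusedSectionVars false

open Topology Filter Cardinal

namespace Pool.Agent.R293.TG

open Pool.Agent.W657.TG ContinuousLinearMap

universe u

open Classical in
/-- the indicator function of an isolated point -/
noncomputable def chi {X : Type u} [TopologicalSpace X] [T2Space X] (u : X)
    (hu : IsOpen ({u} : Set X)) : C(X, ℂ) :=
  ⟨fun x => if x = u then 1 else 0, by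
    have h : (fun x : X => if x = u then (1 : ℂ) else 0) = Set.indicator {u} (fun _ => 1) := by
      funext x
      by_cases h : x = u
      · rw [if_pos h, h, Set.indicator_of_mem (Set.mem_singleton u)]
      · rw [if_neg h, Set.indicator_of_notMem (by simpa using h)]
    rw [h]
    have hcl : IsClopen ({u} : Set X) := ⟨isClosed_singleton, hu⟩
    exact hcl.continuous_indicator continuous_const⟩

section chi

variable {X : Type u} [TopologicalSpace X] [T2Space X] (u : X) (hu : IsOpen ({u} : Set X))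

theorem chi_self : chi u hu u = 1 := if_pos rfl

theorem chi_ne {x : X} (h : x ≠ u) : chi u hu x = 0 := if_neg h

theorem chi_star : star (chi u hu) = chi u hu := by
  ext x
  show (starRingEnd ℂ) (chi u hu x) = chi u hu x
  by_cases h : x = u
  · rw [h, chi_self]; simp
  · rw [chi_ne u hu h]; simp

theorem chi_mul : chi u hu * chi u hu = chi u hu := by
  ext x
  show chi u hu x * chi u hu x = chi u hu x
  by_cases h : x = u
  · rw [h, chi_self]; simp
  · rw [chi_ne u hu h]; simp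

theorem chi_mul_ne (v : X) (hv : IsOpen ({v} : Set X)) (h : u ≠ v) : chi u hu * chi v hv = 0 := by
  ext x
  show chi u hu x * chi v hv x = 0
  by_cases h1 : x = u
  · rw [chi_ne v hv (by rw [h1]; exact h), mul_zero]
  · rw [chi_ne u hu h1, zero_mul]

end chi

namespace Sit

section B

variable {I X K : Type u} [TopologicalSpace X] [CompactSpace X] [T2Space X]
    [NormedAddCommGroup K] [InnerProductSpace ℂ K] [CompleteSpace K]
    (s : Sit (l2 I →L[ℂ] l2 I) X K)

/-- the projection of an isolated point -/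
noncomputable def dd (u : X) (hu : IsOpen ({u} : Set X)) : l2 I →L[ℂ] l2 I := s.ι (chi u hu)

theorem dd_star (u : X) (hu : IsOpen ({u} : Set X)) : star (s.dd u hu) = s.dd u hu := by
  unfold dd
  rw [← map_star, chi_star]

theorem dd_dd (u : X) (hu : IsOpen ({u} : Set X)) (x : l2 I) :
    s.dd u hu (s.dd u hu x) = s.dd u hu x := by
  show (s.ι (chi u hu) * s.ι (chi u hu)) x = _
  rw [← map_mul, chi_mul]
  rfl

theorem dd_dd_ne (u : X) (hu : IsOpen ({u} : Set X)) (v : X) (hv : IsOpen ({v} : Set X))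
    (h : u ≠ v) (x : l2 I) : s.dd u hu (s.dd v hv x) = 0 := by
  show (s.ι (chi u hu) * s.ι (chi v hv)) x = _
  rw [← map_mul, chi_mul_ne u hu v hv h, map_zero]
  rfl

theorem dd_inner (u : X) (hu : IsOpen ({u} : Set X)) (x y : l2 I) :
    inner ℂ (s.dd u hu x) y = inner ℂ x (s.dd u hu y) := by
  conv_lhs => rw [← s.dd_star u hu]
  rw [star_eq_adjoint, adjoint_inner_left]

/-- every unit vector is seen by an isolated point -/
theorem exists_dd (hinj : ∀ a, s.Λ a = 0 → a = 0) {ξ : l2 I} (hξ : ‖ξ‖ = 1) :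
    ∃ (u : X) (hu : IsOpen ({u} : Set X)), s.dd u hu ξ ≠ 0 := by
  obtain ⟨u, hu, h⟩ := s.exists_iso hinj hξ
  refine ⟨u, hu, fun h0 => h ?_⟩
  have h1 := s.E_left (chi u hu) (RR ξ ξ) u
  have h2 : s.ι (chi u hu) * RR ξ ξ = 0 := by
    rw [mul_RR]
    have : s.ι (chi u hu) ξ = 0 := h0
    rw [this]
    ext1 z
    rw [RR_apply, smul_zero]; rfl
  rw [h2, map_zero, chi_self, one_mul, s.E_RR hξ] at h1
  have h3 : ((‖s.Λ (RR ξ ξ) (s.δ u)‖ ^ 2 : ℝ) : ℂ) = 0 := by
    rw [← h1]; simp
  have h4 : ‖s.Λ (RR ξ ξ) (s.δ u)‖ ^ 2 = 0 := by exact_mod_cast h3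
  exact norm_eq_zero.1 (pow_eq_zero_iff two_ne_zero |>.1 h4)

/-- the projections of isolated points are nonzero -/
theorem exists_unit (u : X) (hu : IsOpen ({u} : Set X)) :
    ∃ y : l2 I, ‖y‖ = 1 ∧ s.dd u hu y = y := by
  have h1 : s.dd u hu ≠ 0 := by
    intro h0
    have h2 := s.ι_δ (chi u hu) u
    have h3 : s.ι (chi u hu) = 0 := h0
    rw [h3, map_zero, chi_self, one_smul] at h2
    have h4 := s.δ_norm u
    rw [← h2] at h4
    simp at h4
  obtain ⟨x, hx⟩ : ∃ x, s.dd u hu x ≠ 0 := by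
    by_contra hcon
    push Not at hcon
    exact h1 (by ext1 x; exact hcon x)
  have hpos : 0 < ‖s.dd u hu x‖ := norm_pos_iff.2 hx
  refine ⟨((‖s.dd u hu x‖⁻¹ : ℝ) : ℂ) • s.dd u hu x, ?_, ?_⟩
  · rw [norm_smul, Complex.norm_real, Real.norm_of_nonneg (by positivity),
      inv_mul_cancel₀ hpos.ne']
  · rw [map_smul, s.dd_dd]

/-- the size of a rank one operator in the corner of an isolated point -/
theorem E_corner (u : X) (hu : IsOpen ({u} : Set X)) {y : l2 I} (hy : ‖y‖ = 1)
    (hyu : s.dd u hu y = y) (i : I) : ‖s.Λ (PP {i}) (s.δ u)‖ ^ 2 =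
      ‖s.dd u hu (dl i)‖ ^ 2 * ‖s.Λ (RR y y) (s.δ u)‖ ^ 2 := by
  set x := s.dd u hu (dl i) with hx
  have hxx : s.dd u hu x = x := by rw [hx, s.dd_dd]
  set w := RR x y with hw
  have h1 : w = s.ι (chi u hu) * w * s.ι (chi u hu) := by
    rw [hw, mul_RR, RR_mul, ← map_star, chi_star]
    show _ = RR (s.dd u hu x) (s.dd u hu y)
    rw [hxx, hyu]
  have h2 := s.tr u (chi u hu) (fun v hv => chi_ne u hu hv) w h1
  -- left side
  have h3 := s.E_sq w u
  have h4 := s.E_sq (star w) u
  rw [hw, star_RR, RR_mul_RR, map_smul] at h3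
  rw [star_star, hw, star_RR, RR_mul_RR, map_smul] at h4
  have h5 := s.E_RR hy u
  have h6 : inner ℂ (s.δ u) ((inner ℂ x x • s.Λ (RR y y)) (s.δ u)) =
      ((‖x‖ ^ 2 * ‖s.Λ (RR y y) (s.δ u)‖ ^ 2 : ℝ) : ℂ) := by
    rw [FunLike.coe_smul, Pi.smul_apply, inner_smul_right, h5, inner_self_eq_norm_sq_to_K]
    push_cast; rfl
  have h7 : inner ℂ (s.δ u) ((inner ℂ y y • s.Λ (RR x x)) (s.δ u)) =
      inner ℂ (s.δ u) (s.Λ (RR x x) (s.δ u)) := by
    rw [FunLike.coe_smul, Pi.smul_apply, inner_smul_right, inner_self_eq_norm_sq_to_K, hy]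
    simp
  rw [h6] at h3
  rw [h7] at h4
  -- compression
  have h8 : RR x x = s.ι (chi u hu) * RR (dl i) (dl i) * s.ι (chi u hu) := by
    rw [mul_RR, RR_mul, ← map_star, chi_star]
    rfl
  have h9 : inner ℂ (s.δ u) (s.Λ (RR x x) (s.δ u)) =
      ((‖s.Λ (PP {i}) (s.δ u)‖ ^ 2 : ℝ) : ℂ) := by
    rw [h8, s.E_right, s.E_left, chi_self, one_mul, one_mul, s.E_RR (norm_dl i), RR_eq_PP]
  rw [h9] at h4
  have h10 : ((‖s.Λ (PP {i}) (s.δ u)‖ ^ 2 : ℝ) : ℂ) =
      ((‖x‖ ^ 2 * ‖s.Λ (RR y y) (s.δ u)‖ ^ 2 : ℝ) : ℂ) := by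
    rw [h3, h4]
    rw [← hw, h2, hw, star_RR]
  exact Complex.ofReal_injective h10

theorem pos_corner (hinj : ∀ a, s.Λ a = 0 → a = 0) (u : X) (hu : IsOpen ({u} : Set X)) {y : l2 I}
    (hy : ‖y‖ = 1) (hyu : s.dd u hu y = y) : 0 < ‖s.Λ (RR y y) (s.δ u)‖ ^ 2 := by
  have hne : s.Λ (RR y y) (s.δ u) ≠ 0 := by
    intro h0
    have h1 : s.Λ (RR y y) = 0 := by
      apply s.faith
      intro v
      by_cases hv : v = u
      · rw [hv]; exact h0
      · have h2 : RR y y = RR y y * s.ι (chi u hu) := by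
          rw [RR_mul, ← map_star, chi_star]
          show _ = RR y (s.dd u hu y)
          rw [hyu]
        rw [h2, s.Λ_mul]
        show s.Λ (RR y y) (s.Λ (s.ι (chi u hu)) (s.δ v)) = 0
        rw [s.ι_δ, chi_ne u hu hv, zero_smul, map_zero]
    have h3 := hinj _ h1
    have h4 : RR y y y = y := by
      rw [RR_apply, inner_self_eq_norm_sq_to_K, hy]; simp
    rw [h3] at h4
    have h5 : y = 0 := h4.symm
    rw [h5, norm_zero] at hy
    exact zero_ne_one hy
  have := norm_pos_iff.2 hne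
  positivity

/-- there are infinitely many isolated points -/
theorem iso_infinite [Infinite I] (hinj : ∀ a, s.Λ a = 0 → a = 0) :
    {u : X | IsOpen ({u} : Set X)}.Infinite := by
  classical
  intro hfin
  have : Fintype {u : X | IsOpen ({u} : Set X)} := hfin.fintype
  have hy : ∀ u : {u : X | IsOpen ({u} : Set X)}, ∃ y : l2 I, ‖y‖ = 1 ∧ s.dd u.1 u.2 y = y :=
    fun u => s.exists_unit u.1 u.2
  choose y hy1 hy2 using hy
  set t : {u : X | IsOpen ({u} : Set X)} → ℝ := fun u => ‖s.Λ (RR (y u) (y u)) (s.δ u.1)‖ ^ 2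
    with ht
  have htpos : ∀ u, 0 < t u := fun u => s.pos_corner hinj u.1 u.2 (hy1 u) (hy2 u)
  have hsum1 : ∀ (u : {u : X | IsOpen ({u} : Set X)}) (F : Finset I),
      ∑ i ∈ F, ‖s.dd u.1 u.2 (dl i)‖ ^ 2 ≤ 1 / t u := by
    intro u F
    have h1 := s.bessel (fun i : I => PP {i}) (fun i => PP_star _)
      (fun i => by rw [PP_mul, Set.inter_self]) (fun i k hik => by
        rw [← s.Λ_mul, PP_mul]
        have : ({i} ∩ {k} : Set I) = ∅ := by
          ext x
          simp only [Set.mem_inter_iff, Set.mem_singleton_iff, Set.mem_empty_iff_false, iff_false]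
          rintro ⟨rfl, rfl⟩
          exact hik rfl
        rw [this]
        have h2 : PP (∅ : Set I) = 0 := by
          ext f x
          rw [PP_apply]
          simp
        rw [h2, map_zero]) F u.1
    rw [Finset.sum_congr rfl fun i _ => s.E_corner u.1 u.2 (hy1 u) (hy2 u) i,
      ← Finset.sum_mul] at h1
    rw [le_div_iff₀ (htpos u)]
    exact h1
  have hsum2 : ∀ x : l2 I, ∑ u : {u : X | IsOpen ({u} : Set X)}, ‖s.dd u.1 u.2 x‖ ^ 2 = ‖x‖ ^ 2 := by
    intro x
    set z : l2 I := x - ∑ u : {u : X | IsOpen ({u} : Set X)}, s.dd u.1 u.2 x with hz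
    have hdz : ∀ (v : X) (hv : IsOpen ({v} : Set X)), s.dd v hv z = 0 := by
      intro v hv
      rw [hz, map_sub, map_sum, Finset.sum_eq_single ⟨v, hv⟩]
      · rw [s.dd_dd, sub_self]
      · intro u _ huv
        exact s.dd_dd_ne v hv u.1 u.2 (fun h => huv (Subtype.ext h.symm)) x
      · intro h; exact absurd (Finset.mem_univ _) h
    have hz0 : z = 0 := by
      by_contra hne
      have hpos : 0 < ‖z‖ := norm_pos_iff.2 hne
      obtain ⟨u, hu, h⟩ := s.exists_dd hinj (ξ := ((‖z‖⁻¹ : ℝ) : ℂ) • z) (by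
        rw [norm_smul, Complex.norm_real, Real.norm_of_nonneg (by positivity),
          inv_mul_cancel₀ hpos.ne'])
      apply h
      rw [map_smul, hdz, smul_zero]
    have hx : x = ∑ u : {u : X | IsOpen ({u} : Set X)}, s.dd u.1 u.2 x := sub_eq_zero.1 hz0
    have h1 : ((‖x‖ ^ 2 : ℝ) : ℂ) =
        ((∑ u : {u : X | IsOpen ({u} : Set X)}, ‖s.dd u.1 u.2 x‖ ^ 2 : ℝ) : ℂ) := by
      have h2 : inner ℂ x x = ((‖x‖ ^ 2 : ℝ) : ℂ) := by
        rw [inner_self_eq_norm_sq_to_K]; push_cast; rfl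
      rw [← h2]
      have h3 : inner ℂ x (∑ u : {u : X | IsOpen ({u} : Set X)}, s.dd u.1 u.2 x) =
          ((∑ u : {u : X | IsOpen ({u} : Set X)}, ‖s.dd u.1 u.2 x‖ ^ 2 : ℝ) : ℂ) := by
        rw [inner_sum]
        push_cast
        refine Finset.sum_congr rfl fun u _ => ?_
        rw [← s.dd_dd, ← s.dd_inner, inner_self_eq_norm_sq_to_K]
        rw [s.dd_dd]; rfl
      rw [← h3, ← hx]
    exact (Complex.ofReal_injective h1).symm
  set M : ℝ := ∑ u : {u : X | IsOpen ({u} : Set X)}, 1 / t u with hM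
  obtain ⟨n, hn⟩ := exists_nat_gt M
  obtain ⟨F, hF⟩ := Infinite.exists_subset_card_eq I n
  have h1 : (n : ℝ) = ∑ i ∈ F, ∑ u : {u : X | IsOpen ({u} : Set X)},
      ‖s.dd u.1 u.2 (dl i)‖ ^ 2 := by
    rw [Finset.sum_congr rfl fun i _ => hsum2 (dl i)]
    simp only [norm_dl, one_pow, Finset.sum_const, nsmul_eq_mul, mul_one, hF]
  rw [Finset.sum_comm] at h1
  have h2 : (n : ℝ) ≤ M := by
    rw [h1]
    exact Finset.sum_le_sum fun u _ => hsum1 u F
  linarith

/-- the operator far from banded operators -/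
theorem caseB [Infinite I] (hinj : ∀ a, s.Λ a = 0 → a = 0) : False := by
  classical
  set emb := Set.Infinite.natEmbedding _ (s.iso_infinite hinj) with hemb
  set v : ℕ → X := fun n => (emb n).1 with hv
  have hvo : ∀ n, IsOpen ({v n} : Set X) := fun n => (emb n).2
  have hvinj : Function.Injective v := fun a b h => emb.injective (Subtype.ext h)
  have hy : ∀ n, ∃ y : l2 I, ‖y‖ = 1 ∧ s.dd (v n) (hvo n) y = y :=
    fun n => s.exists_unit (v n) (hvo n)
  choose y hy1 hy2 using hy
  have horth : ∀ n m, inner ℂ (y n) (y m) = if n = m then (1 : ℂ) else 0 := by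
    intro n m
    split_ifs with h
    · rw [h, inner_self_eq_norm_sq_to_K, hy1]; simp
    · rw [← hy2 n, ← hy2 m, s.dd_inner, s.dd_dd_ne _ _ _ _ (fun h' => h (hvinj h')), inner_zero_right]
  have hON : Orthonormal ℂ y := orthonormal_iff_ite.2 horth
  set z : ℕ → l2 I := fun n => (((Real.sqrt (n + 1))⁻¹ : ℝ) : ℂ) •
    ∑ i ∈ Finset.range (n + 1), y (Nat.pair n i) with hz
  have hyz : ∀ n k, k ∈ Finset.range (n + 1) →
      inner ℂ (y (Nat.pair n k)) (z n) = (((Real.sqrt (n + 1))⁻¹ : ℝ) : ℂ) := by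
    intro n k hk
    rw [hz]
    simp only
    rw [inner_smul_right, inner_sum, Finset.sum_eq_single k]
    · rw [horth, if_pos rfl, mul_one]
    · intro i _ hik
      rw [horth, if_neg]
      intro h
      exact hik (Nat.pair_eq_pair.1 h).2.symm
    · intro h; exact absurd hk h
  have hONz : Orthonormal ℂ z := by
    rw [orthonormal_iff_ite]
    intro n m
    have h1 : inner ℂ (z n) (z m) = (((Real.sqrt (n + 1))⁻¹ : ℝ) : ℂ) *
        ∑ i ∈ Finset.range (n + 1), inner ℂ (y (Nat.pair n i)) (z m) := by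
      conv_lhs => rw [hz]
      simp only
      rw [inner_smul_left, sum_inner, Complex.conj_ofReal]
    split_ifs with h
    · subst h
      rw [h1, Finset.sum_congr rfl (fun i hi => hyz n i hi), Finset.sum_const, Finset.card_range,
        nsmul_eq_mul]
      have h2 : Real.sqrt ((n : ℝ) + 1) * Real.sqrt ((n : ℝ) + 1) = (n : ℝ) + 1 :=
        Real.mul_self_sqrt (by positivity)
      have h3 : Real.sqrt ((n : ℝ) + 1) ≠ 0 := by positivity
      have h4 : (Real.sqrt ((n : ℝ) + 1))⁻¹ * (((n + 1 : ℕ) : ℝ) * (Real.sqrt ((n : ℝ) + 1))⁻¹) = 1 := by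
        push_cast
        field_simp
        nlinarith
      exact_mod_cast h4
    · rw [h1, Finset.sum_eq_zero, mul_zero]
      intro i _
      rw [hz]
      simp only
      rw [inner_smul_right, inner_sum, Finset.sum_eq_zero, mul_zero]
      intro k _
      rw [horth, if_neg]
      intro h'
      exact h (Nat.pair_eq_pair.1 h').1
  set V1 := hON.orthogonalFamily.linearIsometry with hV1
  set V2 := hONz.orthogonalFamily.linearIsometry with hV2
  set T : l2 I →L[ℂ] l2 I := V2.toContinuousLinearMap ∘L (adjoint V1.toContinuousLinearMap) with hT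
  have hTy : ∀ n, T (y n) = z n := by
    intro n
    have h1 : V1 (lp.single 2 n (1 : ℂ)) = y n := by
      rw [hV1, OrthogonalFamily.linearIsometry_apply_single]
      simp
    have h2 : V2 (lp.single 2 n (1 : ℂ)) = z n := by
      rw [hV2, OrthogonalFamily.linearIsometry_apply_single]
      simp
    have h3 : adjoint V1.toContinuousLinearMap ∘L V1.toContinuousLinearMap = 1 :=
      (norm_map_iff_adjoint_comp_self _).1 fun x => V1.norm_map x
    show V2 (adjoint V1.toContinuousLinearMap (y n)) = z n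
    rw [← h1, ← h2]
    congr 1
    exact congrArg (fun A : (lp (fun _ : ℕ => ℂ) 2) →L[ℂ] _ => A (lp.single 2 n (1 : ℂ))) h3
  obtain ⟨a, ha, N, hN⟩ := s.band T (1 / 2) (by norm_num)
  set n : ℕ := 2 * N + 1 with hn
  obtain ⟨t, htc, ht⟩ := hN (v n)
  set Sx : Finset ℕ := (Finset.range (n + 1)).filter fun k => v (Nat.pair n k) ∉ t with hSx
  have hcard : n + 1 - N ≤ Sx.card := by
    have h1 : ((Finset.range (n + 1)).filter fun k => v (Nat.pair n k) ∈ t).card ≤ N := by
      refine le_trans ?_ htc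
      refine Finset.card_le_card_of_injOn (fun k => v (Nat.pair n k)) ?_ ?_
      · intro k hk
        exact (Finset.mem_filter.1 hk).2
      · intro k _ l _ hkl
        exact (Nat.pair_eq_pair.1 (hvinj hkl)).2
    have h2 := Finset.card_filter_add_card_filter_not (s := Finset.range (n + 1))
      (fun k => v (Nat.pair n k) ∈ t)
    rw [Finset.card_range] at h2
    have h3 : Sx = (Finset.range (n + 1)).filter fun k => ¬ v (Nat.pair n k) ∈ t := rfl
    rw [h3]
    omega
  have hzero : ∀ k ∈ Sx, inner ℂ (y (Nat.pair n k)) (a (y n)) = 0 := by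
    intro k hk
    have h1 := ht (v (Nat.pair n k)) (Finset.mem_filter.1 hk).2 (chi _ (hvo _)) (chi _ (hvo n))
      (fun w hw => chi_ne _ _ hw) (fun w hw => chi_ne _ _ hw)
    have h2 := congrArg (fun A : l2 I →L[ℂ] l2 I => A (y n)) h1
    have h3 : s.dd _ (hvo (Nat.pair n k)) (a (s.dd _ (hvo n) (y n))) = 0 := h2
    rw [hy2] at h3
    rw [← hy2 (Nat.pair n k), s.dd_inner, h3, inner_zero_right]
  have hinner : ∀ k ∈ Sx, ‖inner ℂ (y (Nat.pair n k)) ((T - a) (y n))‖ ^ 2 = 1 / ((n : ℝ) + 1) := by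
    intro k hk
    rw [sub_apply, inner_sub_right, hzero k hk, sub_zero, hTy, hyz n k (Finset.mem_filter.1 hk).1,
      Complex.norm_real, Real.norm_of_nonneg (by positivity), inv_pow, Real.sq_sqrt (by positivity),
      one_div]
  have hON' : Orthonormal ℂ fun k => y (Nat.pair n k) := by
    refine hON.comp _ ?_
    intro k l h
    exact (Nat.pair_eq_pair.1 h).2
  have hB := hON'.sum_inner_products_le (𝕜 := ℂ) ((T - a) (y n)) (s := Sx)
  rw [Finset.sum_congr rfl hinner, Finset.sum_const, nsmul_eq_mul] at hB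
  have h1 := (T - a).le_opNorm (y n)
  rw [hy1, mul_one] at h1
  have h2 : ‖(T - a) (y n)‖ ^ 2 < 1 / 4 := by
    have h3 : ‖(T - a) (y n)‖ < 1 / 2 := h1.trans_lt ha
    nlinarith [norm_nonneg ((T - a) (y n))]
  have h3 : (1 / 2 : ℝ) ≤ (Sx.card : ℝ) * (1 / ((n : ℝ) + 1)) := by
    have h4 : ((n + 1 - N : ℕ) : ℝ) ≤ (Sx.card : ℝ) := by exact_mod_cast hcard
    have h5 : ((n + 1 - N : ℕ) : ℝ) = (n : ℝ) + 1 - N := by
      rw [Nat.cast_sub (by omega)]; push_cast; ring
    rw [h5] at h4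
    have h6 : (n : ℝ) = 2 * N + 1 := by rw [hn]; push_cast; ring
    rw [mul_one_div, le_div_iff₀ (by positivity)]
    rw [h6] at h4 ⊢
    linarith
  linarith

include s in
/-- the contradiction -/
theorem false [Infinite I] : False := by
  have h1 : s.Λ 1 ≠ 0 := by
    intro h0
    have hX : Nonempty X ∨ IsEmpty X := (isEmpty_or_nonempty X).symm
    rcases hX with ⟨⟨u⟩⟩ | hX
    · have h2 := s.ι_δ 1 u
      rw [map_one, h0] at h2
      have h3 : s.δ u = 0 := by
        have h4 : (1 : C(X, ℂ)) u = 1 := rfl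
        rw [h4, one_smul] at h2
        exact h2.symm
      have := s.δ_norm u
      rw [h3, norm_zero] at this
      exact zero_ne_one this
    · have h2 : (1 : C(X, ℂ)) = 0 := by
        ext x
        exact hX.elim x
      have h3 : (1 : l2 I →L[ℂ] l2 I) = 0 := by
        rw [← map_one s.ι, h2, map_zero]
      obtain ⟨i⟩ : Nonempty I := inferInstance
      have h4 : (dl i : l2 I) = 0 := by
        have := congrArg (fun A : l2 I →L[ℂ] l2 I => A (dl i)) h3
        exact this
      have := norm_dl i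
      rw [h4, norm_zero] at this
      exact zero_ne_one this
  by_cases h : ∃ i0, s.Λ (PP {i0}) = 0
  · obtain ⟨i0, h0⟩ := h
    exact s.caseA h1 i0 h0
  · push Not at h
    exact s.caseB (s.inj h)

end B

end Sit

end Pool.Agent.R293.TG
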