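import Pool.Agent.R293.TG.Conv

/-!
MP_8a69f9_an: `*`-representations of `C_c(G, Σ)`, the regular representation.
-/

set_option autoImplicit false

open Topology Filter

namespace Pool.Agent.R293.TG

open Pool.Agent.W657.TG

universe u

variable {X G S : Type u} [TopologicalSpace X] [TopologicalSpace G] [TopologicalSpace S]
  {𝒢 : TopGpd X G}

/-- The restriction of `π` to `C_c(G, Σ)` is a `*`-homomorphism from `C_c(G, Σ)` to `B`. (Only the
values of `π` on `C_c(G, Σ)` matter.) -/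
structure IsStarHom (tw : Twist 𝒢 S) {B : Type*} [Add B] [Mul B] [SMul ℂ B] [Star B]
    (π : (S → ℂ) → B) : Prop where
  add : ∀ f g, tw.IsSection f → tw.IsSection g → π (f + g) = π f + π g
  smul : ∀ (c : ℂ) f, tw.IsSection f → π (c • f) = c • π f
  mul : ∀ f g, tw.IsSection f → tw.IsSection g → π (conv tw f g) = π f * π g
  star : ∀ f, tw.IsSection f → π (invo tw f) = star (π f)

variable {tw : Twist 𝒢 S}

theorem isSection_add {f g : S → ℂ} (hf : tw.IsSection f) (hg : tw.IsSection g) :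
    tw.IsSection (f + g) :=
  ⟨hf.continuous.add hg.continuous, hf.hasCompactSupport.add hg.hasCompactSupport, fun z σ => by
    show f _ + g _ = _ * (f σ + g σ)
    rw [hf.equivariant, hg.equivariant]; ring⟩

theorem isSection_smul (c : ℂ) {f : S → ℂ} (hf : tw.IsSection f) : tw.IsSection (c • f) :=
  ⟨hf.continuous.const_smul c, hf.hasCompactSupport.smul_left (f := fun _ => c), fun z σ => by
    show c * f _ = _ * (c * f σ)
    rw [hf.equivariant]; ring⟩

theorem isSection_zero : tw.IsSection (0 : S → ℂ) :=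
  ⟨continuous_const, HasCompactSupport.zero, fun z σ => by simp⟩

open Classical in
/-- the regular representation -/
noncomputable def reg (tw : Twist 𝒢 S) (f : S → ℂ) : l2 G →L[ℂ] l2 G :=
  if h : ∃ T, tw.IsRegular f T then h.choose else 0

theorem reg_spec [T2Space G] (h𝒢 : 𝒢.Etale) {f : S → ℂ} (hf : tw.IsSection f) :
    tw.IsRegular f (reg tw f) := by
  unfold reg
  rw [dif_pos (Twist.exists_regular h𝒢 hf)]
  exact (Twist.exists_regular h𝒢 hf).choose_spec

theorem regular_unique {f : S → ℂ} {T T' : l2 G →L[ℂ] l2 G} (h : tw.IsRegular f T)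
    (h' : tw.IsRegular f T') : T = T' := by
  apply op_ext
  intro η
  apply lp.ext
  funext γ
  rw [h.apply_dl, h'.apply_dl]

theorem reg_entry [T2Space G] (h𝒢 : 𝒢.Etale) {f : S → ℂ} (hf : tw.IsSection f) (γ η : G) :
    (reg tw f (dl η)) γ = tw.entry f γ η := (reg_spec h𝒢 hf).apply_dl γ η

theorem conv_entry {f g : S → ℂ} (hf : tw.IsSection f) (hg : tw.IsSection g) (γ η : G)
    (v : ℂ) (hv : HasSum (fun κ => tw.entry f γ κ * tw.entry g κ η) v) :
    tw.entry (conv tw f g) γ η = v := by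
  by_cases h : 𝒢.s γ = 𝒢.s η
  · rw [Twist.entry_of_eq _ h]
    set σ := tw.gpd.mul (tw.lift γ) (tw.gpd.inv (tw.lift η)) with hσ
    have hr : tw.gpd.r σ = 𝒢.r γ := by
      rw [hσ, tw.gpd.r_mul _ _ (by rw [tw.gpd.r_inv, tw.s_lift, tw.s_lift, h]), tw.r_lift]
    have hsβ : ∀ β : {β : G // 𝒢.r β = 𝒢.r γ}, 𝒢.s (𝒢.mul (𝒢.inv β.1) γ) = 𝒢.s γ := fun β =>
      𝒢.s_mul _ _ (by rw [𝒢.s_inv, β.2])
    -- the index change
    let i : {β : G // 𝒢.r β = 𝒢.r γ} → G := fun β => 𝒢.mul (𝒢.inv β.1) γ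
    have hi : Function.Injective i := by
      intro β β' hb
      have h1 := TopGpd.mul_right_cancel (𝒢 := 𝒢) (by rw [𝒢.s_inv, β.2]) (by rw [𝒢.s_inv, β'.2]) hb
      apply Subtype.ext
      rw [← TopGpd.inv_inv (𝒢 := 𝒢) β.1, h1, TopGpd.inv_inv]
    have hir : ∀ κ ∉ Set.range i, tw.entry f γ κ * tw.entry g κ η = 0 := by
      intro κ hκ
      by_cases hs : 𝒢.s γ = 𝒢.s κ
      · exfalso
        apply hκ
        have e1 : 𝒢.s γ = 𝒢.r (𝒢.inv κ) := by rw [𝒢.r_inv, hs]
        refine ⟨⟨𝒢.mul γ (𝒢.inv κ), 𝒢.r_mul _ _ e1⟩, ?_⟩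
        show 𝒢.mul (𝒢.inv (𝒢.mul γ (𝒢.inv κ))) γ = κ
        rw [TopGpd.mul_inv_rev e1, TopGpd.inv_inv, TopGpd.inv_mul_cancel_right]
        exact hs.symm
      · rw [Twist.entry_of_ne _ hs, zero_mul]
    have h1 : HasSum (fun β => tw.entry f γ (i β) * tw.entry g (i β) η) v :=
      (hi.hasSum_iff hir).2 hv
    rw [← h1.tsum_eq]
    unfold conv
    rw [← Function.Injective.tsum_eq (g := fun β : {β : G // 𝒢.r β = 𝒢.r γ} => β.1)
      Subtype.val_injective]
    · refine tsum_congr fun β => ?_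
      rw [if_pos (by rw [hr, β.2])]
      have e1 : 𝒢.s γ = 𝒢.s (i β) := (hsβ β).symm
      have e2 : 𝒢.s (i β) = 𝒢.s η := by rw [← e1, h]
      rw [Twist.entry_of_eq _ e1, Twist.entry_of_eq _ e2]
      have e1' : tw.gpd.s (tw.lift γ) = tw.gpd.s (tw.lift (i β)) := by
        rw [tw.s_lift, tw.s_lift, e1]
      have e2' : tw.gpd.s (tw.lift (i β)) = tw.gpd.s (tw.lift η) := by
        rw [tw.s_lift, tw.s_lift, e2]
      have hp : tw.proj (tw.gpd.mul (tw.lift γ) (tw.gpd.inv (tw.lift (i β)))) = β.1 := by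
        rw [Twist.proj_mul_lift e1]
        show 𝒢.mul γ (𝒢.inv (𝒢.mul (𝒢.inv β.1) γ)) = β.1
        rw [TopGpd.mul_inv_rev (by rw [𝒢.s_inv, β.2]), TopGpd.inv_inv,
          TopGpd.mul_inv_cancel_left β.2.symm]
      rw [term_inv hf hg (τ := tw.gpd.mul (tw.lift γ) (tw.gpd.inv (tw.lift (i β))))
        (by rw [hp, tw.proj_lift]) (by
          rw [hr, ← tw.r_proj, hp, β.2])]
      congr 2
      rw [hσ, TopGpd.mul_inv_rev (by rw [tw.gpd.r_inv, e1']), TopGpd.inv_inv]
      have := TopGpd.mul_mul_inv (𝒢 := tw.gpd) (g := tw.lift (i β)) (h := tw.lift γ)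
        (k := tw.lift η) e1'.symm (by rw [e1', e2'])
      exact this
    · intro β hβ
      have : 𝒢.r β = tw.gpd.r σ := by
        by_contra hne
        exact hβ (if_neg hne)
      exact ⟨⟨β, by rw [this, hr]⟩, rfl⟩
  · rw [Twist.entry_of_ne _ h]
    have h1 : (fun κ => tw.entry f γ κ * tw.entry g κ η) = fun _ => 0 := by
      funext κ
      by_cases hs : 𝒢.s γ = 𝒢.s κ
      · rw [Twist.entry_of_ne g (fun hs' => h (hs.trans hs')), mul_zero]
      · rw [Twist.entry_of_ne f hs, zero_mul]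
    rw [h1] at hv
    exact hasSum_zero.unique hv

/-- the regular representation is a `*`-representation -/
theorem reg_isStarHom [T2Space G] [T2Space S] (h𝒢 : 𝒢.Etale) : IsStarHom tw (reg tw) := by
  constructor
  · intro f g hf hg
    apply op_ext
    intro η
    apply lp.ext
    funext γ
    show _ = (reg tw f (dl η)) γ + (reg tw g (dl η)) γ
    rw [reg_entry h𝒢 (isSection_add hf hg), reg_entry h𝒢 hf, reg_entry h𝒢 hg]
    unfold Twist.entry
    split_ifs
    · rfl
    · rw [add_zero]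
  · intro c f hf
    apply op_ext
    intro η
    apply lp.ext
    funext γ
    show _ = c * (reg tw f (dl η)) γ
    rw [reg_entry h𝒢 (isSection_smul c hf), reg_entry h𝒢 hf]
    unfold Twist.entry
    split_ifs
    · rfl
    · rw [mul_zero]
  · intro f g hf hg
    apply op_ext
    intro η
    apply lp.ext
    funext γ
    rw [reg_entry h𝒢 (isSection_conv h𝒢 hf hg)]
    apply conv_entry hf hg
    have := reg_spec h𝒢 hf (reg tw g (dl η)) γ
    simp only [reg_entry h𝒢 hg] at this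
    exact this
  · intro f hf
    apply op_ext
    intro η
    apply lp.ext
    funext γ
    rw [reg_entry h𝒢 (isSection_invo hf), ContinuousLinearMap.star_eq_adjoint, adj_entry,
      reg_entry h𝒢 hf]
    by_cases h : 𝒢.s γ = 𝒢.s η
    · rw [Twist.entry_of_eq _ h, Twist.entry_of_eq _ h.symm]
      unfold invo
      rw [TopGpd.mul_inv_rev (by rw [tw.gpd.r_inv, tw.s_lift, tw.s_lift, h]), TopGpd.inv_inv]
    · rw [Twist.entry_of_ne _ h, Twist.entry_of_ne _ (Ne.symm h), map_zero]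

end Pool.Agent.R293.TG
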