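import Pool.Agent.R293.TG.Ext

/-!
MP_8a69f9_an: the structure of a unital full twisted groupoid algebra.
-/

set_option autoImplicit false

open Topology Filter

namespace Pool.Agent.R293.TG

open Pool.Agent.W657.TG

universe u

/-- the data extracted from an isomorphism with a full twisted groupoid C*-algebra -/
structure Sit (B X K : Type u) [CStarAlgebra B] [TopologicalSpace X] [NormedAddCommGroup K]
    [InnerProductSpace ℂ K] [CompleteSpace K] where
  /-- representation -/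
  Λ : B →L[ℂ] (K →L[ℂ] K)
  Λ_mul : ∀ a b, Λ (a * b) = Λ a * Λ b
  Λ_star : ∀ a, Λ (star a) = star (Λ a)
  Λ_norm : ∀ a, ‖Λ a‖ ≤ ‖a‖
  /-- vectors -/
  δ : X → K
  δ_norm : ∀ u, ‖δ u‖ = 1
  /-- functions -/
  ι : C(X, ℂ) →⋆ₐ[ℂ] B
  ι_δ : ∀ d u, Λ (ι d) (δ u) = d u • δ u
  cont : ∀ a, Continuous fun u => inner ℂ (δ u) (Λ a (δ u))
  faith : ∀ a, (∀ u, Λ a (δ u) = 0) → Λ a = 0
  tr : ∀ u (d : C(X, ℂ)), (∀ v, v ≠ u → d v = 0) → ∀ w, w = ι d * w * ι d →
    ‖Λ w (δ u)‖ = ‖Λ (star w) (δ u)‖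
  band : ∀ T : B, ∀ ε : ℝ, 0 < ε → ∃ a, ‖T - a‖ < ε ∧ ∃ N : ℕ, ∀ v : X, ∃ t : Finset X,
    t.card ≤ N ∧ ∀ u ∉ t, ∀ d d' : C(X, ℂ), (∀ w, w ≠ u → d w = 0) → (∀ w, w ≠ v → d' w = 0) →
      ι d * a * ι d' = 0

variable {X G S : Type u} [TopologicalSpace X] [TopologicalSpace G] [TopologicalSpace S]
  {𝒢 : TopGpd X G} {tw : Twist 𝒢 S}

theorem ofUnits_unit (d : X → ℂ) (x : X) : tw.ofUnits d (tw.gpd.unit x) = d x := by
  rw [← tw.incl_one, Twist.ofUnits_incl]
  simp

theorem conv_ofUnits_left {d : X → ℂ} (hd : tw.IsSection (tw.ofUnits d)) {f : S → ℂ}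
    (hf : tw.IsSection f) : conv tw (tw.ofUnits d) f = fun σ => d (tw.gpd.r σ) * f σ := by
  funext σ
  unfold conv
  rw [tsum_eq_single (𝒢.unit (tw.gpd.r σ))]
  · rw [if_pos (𝒢.r_unit _), term_inv hd hf (τ := tw.gpd.unit (tw.gpd.r σ))
      (by rw [tw.proj_unit, tw.proj_lift]) (tw.gpd.r_unit _), ofUnits_unit, TopGpd.inv_unit,
      tw.gpd.unit_mul]
  · intro γ hγ
    split_ifs with h
    · rw [Twist.ofUnits_of_notMem, zero_mul]
      rintro ⟨p, hp⟩
      apply hγ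
      have h1 := congrArg tw.proj hp
      rw [tw.proj_incl, tw.proj_lift] at h1
      have h2 : p.1 = tw.gpd.r σ := by rw [← h, ← h1, 𝒢.r_unit]
      rw [← h1, h2]
    · rfl

theorem conv_ofUnits_right {d : X → ℂ} (hd : tw.IsSection (tw.ofUnits d)) {f : S → ℂ}
    (hf : tw.IsSection f) : conv tw f (tw.ofUnits d) = fun σ => f σ * d (tw.gpd.s σ) := by
  funext σ
  unfold conv
  rw [tsum_eq_single (tw.proj σ)]
  · rw [if_pos (tw.r_proj σ), term_inv hf hd (τ := σ) (by rw [tw.proj_lift]) rfl,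
      tw.gpd.inv_mul, ofUnits_unit]
  · intro γ hγ
    split_ifs with h
    · rw [Twist.ofUnits_of_notMem, mul_zero]
      rw [← tw.ker_proj, tw.proj_mul _ _ (by rw [tw.gpd.s_inv, tw.r_lift, h]), tw.proj_inv,
        tw.proj_lift]
      rintro ⟨x, hx⟩
      apply hγ
      have e : 𝒢.r γ = 𝒢.r (tw.proj σ) := by rw [h, tw.r_proj]
      have h1 := TopGpd.mul_inv_cancel_left (𝒢 := 𝒢) (g := γ) (h := tw.proj σ) e
      have h2 : x = 𝒢.s γ := by
        have := congrArg 𝒢.r hx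
        rw [𝒢.r_unit, 𝒢.r_mul _ _ (by rw [𝒢.s_inv, e]), 𝒢.r_inv] at this
        exact this
      rw [← hx, h2, 𝒢.mul_unit] at h1
      exact h1
    · rfl

theorem ofUnits_mul (d d' : X → ℂ) :
    (fun σ => d (tw.gpd.r σ) * tw.ofUnits d' σ) = tw.ofUnits (d * d') := by
  funext σ
  by_cases h : σ ∈ Set.range tw.incl
  · obtain ⟨p, rfl⟩ := h
    rw [Twist.ofUnits_incl, Twist.ofUnits_incl, tw.r_incl]
    show _ = _ * (d p.1 * d' p.1)
    ring
  · rw [Twist.ofUnits_of_notMem _ h, Twist.ofUnits_of_notMem _ h, mul_zero]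

theorem ofUnits_add (d d' : X → ℂ) : tw.ofUnits (d + d') = tw.ofUnits d + tw.ofUnits d' := by
  funext σ
  show _ = tw.ofUnits d σ + tw.ofUnits d' σ
  by_cases h : σ ∈ Set.range tw.incl
  · obtain ⟨p, rfl⟩ := h
    rw [Twist.ofUnits_incl, Twist.ofUnits_incl, Twist.ofUnits_incl]
    show _ * (d p.1 + d' p.1) = _
    ring
  · rw [Twist.ofUnits_of_notMem _ h, Twist.ofUnits_of_notMem _ h, Twist.ofUnits_of_notMem _ h,
      add_zero]

theorem ofUnits_smul (c : ℂ) (d : X → ℂ) : tw.ofUnits (c • d) = c • tw.ofUnits d := by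
  funext σ
  show _ = c * tw.ofUnits d σ
  by_cases h : σ ∈ Set.range tw.incl
  · obtain ⟨p, rfl⟩ := h
    rw [Twist.ofUnits_incl, Twist.ofUnits_incl]
    show _ * (c * d p.1) = _
    ring
  · rw [Twist.ofUnits_of_notMem _ h, Twist.ofUnits_of_notMem _ h, mul_zero]

theorem ofUnits_star (d : X → ℂ) : tw.ofUnits (star d) = invo tw (tw.ofUnits d) := by
  funext σ
  unfold invo
  by_cases h : σ ∈ Set.range tw.incl
  · obtain ⟨⟨x, z⟩, rfl⟩ := h
    have h1 : tw.gpd.inv (tw.incl (x, z)) = tw.incl (x, z⁻¹) := by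
      rw [tw.incl_eq_act, tw.inv_act, TopGpd.inv_unit, ← tw.incl_eq_act]
    rw [h1, Twist.ofUnits_incl, Twist.ofUnits_incl, map_mul]
    show _ * (starRingEnd ℂ) (d x) = _
    have h2 : (starRingEnd ℂ) ((z⁻¹ : Circle) : ℂ) = (z : ℂ) := by
      rw [Circle.coe_inv_eq_conj, Complex.conj_conj]
    rw [h2]
  · have h1 : tw.gpd.inv σ ∉ Set.range tw.incl := by
      rw [← tw.ker_proj, tw.proj_inv]
      rintro ⟨x, hx⟩
      apply h
      rw [← tw.ker_proj]
      refine ⟨x, ?_⟩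
      rw [← TopGpd.inv_inv (𝒢 := 𝒢) (tw.proj σ), ← hx, TopGpd.inv_unit]
    rw [Twist.ofUnits_of_notMem _ h, Twist.ofUnits_of_notMem _ h1, map_zero]

section main

variable [T2Space G] [T2Space S] (h𝒢 : 𝒢.Etale) {B : Type u} [CStarAlgebra B]
  {j : (S → ℂ) → B} (hj : IsStarHom tw j)

include h𝒢 in
theorem reg_ofUnits {d : X → ℂ} (hd : tw.IsSection (tw.ofUnits d)) (ξ : l2 G) (γ : G) :
    (reg tw (tw.ofUnits d) ξ) γ = d (𝒢.r γ) * ξ γ := by
  have h := reg_spec h𝒢 hd ξ γ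
  have h2 := hasSum_single (f := fun η => tw.entry (tw.ofUnits d) γ η * ξ η) γ (fun η hη => by
    rw [Twist.entry_ofUnits_ne d hη.symm, zero_mul])
  rw [h.unique h2, Twist.entry_ofUnits]

theorem norm_sq_l2 (ξ : l2 G) : ‖ξ‖ ^ 2 = ∑' γ, ‖ξ γ‖ ^ 2 := by
  have := lp.norm_rpow_eq_tsum (p := 2) (by norm_num) ξ
  simpa using this

/-- `ι` -/
noncomputable def iotaHom [CompactSpace X] (hd : closure (j '' {f | tw.IsSection f}) = Set.univ) :
    C(X, ℂ) →⋆ₐ[ℂ] B where
  toFun d := j (tw.ofUnits d)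
  map_one' := by
    have hs : tw.IsSection (tw.ofUnits ⇑(1 : C(X, ℂ))) :=
      Twist.isSection_ofUnits h𝒢 (ContinuousMap.continuous _) (HasCompactSupport.of_compactSpace _)
    have h1 : ∀ b : B, j (tw.ofUnits ⇑(1 : C(X, ℂ))) * b = b := by
      have hcl : IsClosed {b : B | j (tw.ofUnits ⇑(1 : C(X, ℂ))) * b = b} :=
        isClosed_eq (continuous_const.mul continuous_id) continuous_id
      intro b
      have h2 : closure (j '' {f | tw.IsSection f}) ⊆
          {b : B | j (tw.ofUnits ⇑(1 : C(X, ℂ))) * b = b} := by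
        apply closure_minimal _ hcl
        rintro _ ⟨f, hf, rfl⟩
        show _ * j f = j f
        rw [← hj.mul _ _ hs hf, conv_ofUnits_left hs hf]
        congr 1
        funext σ
        simp
      rw [hd] at h2
      exact h2 trivial
    have := h1 1
    rwa [mul_one] at this
  map_mul' d d' := by
    have hs : ∀ d : C(X, ℂ), tw.IsSection (tw.ofUnits d) := fun d =>
      Twist.isSection_ofUnits h𝒢 (ContinuousMap.continuous _) (HasCompactSupport.of_compactSpace _)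
    rw [← hj.mul _ _ (hs d) (hs d'), conv_ofUnits_left (hs d) (hs d'), ofUnits_mul]
    rfl
  map_zero' := by
    have h1 : tw.ofUnits ⇑(0 : C(X, ℂ)) = (0 : ℂ) • tw.ofUnits ⇑(0 : C(X, ℂ)) := by
      rw [← ofUnits_smul]; simp
    have hs : tw.IsSection (tw.ofUnits ⇑(0 : C(X, ℂ))) :=
      Twist.isSection_ofUnits h𝒢 (ContinuousMap.continuous _) (HasCompactSupport.of_compactSpace _)
    rw [h1, hj.smul _ _ hs, zero_smul]
  map_add' d d' := by
    have hs : ∀ d : C(X, ℂ), tw.IsSection (tw.ofUnits d) := fun d =>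
      Twist.isSection_ofUnits h𝒢 (ContinuousMap.continuous _) (HasCompactSupport.of_compactSpace _)
    rw [← hj.add _ _ (hs d) (hs d'), ← ofUnits_add]
    rfl
  commutes' c := by
    have hs : tw.IsSection (tw.ofUnits ⇑(1 : C(X, ℂ))) :=
      Twist.isSection_ofUnits h𝒢 (ContinuousMap.continuous _) (HasCompactSupport.of_compactSpace _)
    have h1 : ∀ b : B, j (tw.ofUnits ⇑(1 : C(X, ℂ))) * b = b := by
      have hcl : IsClosed {b : B | j (tw.ofUnits ⇑(1 : C(X, ℂ))) * b = b} :=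
        isClosed_eq (continuous_const.mul continuous_id) continuous_id
      intro b
      have h2 : closure (j '' {f | tw.IsSection f}) ⊆
          {b : B | j (tw.ofUnits ⇑(1 : C(X, ℂ))) * b = b} := by
        apply closure_minimal _ hcl
        rintro _ ⟨f, hf, rfl⟩
        show _ * j f = j f
        rw [← hj.mul _ _ hs hf, conv_ofUnits_left hs hf]
        congr 1
        funext σ
        simp
      rw [hd] at h2
      exact h2 trivial
    have h3 : j (tw.ofUnits ⇑(1 : C(X, ℂ))) = 1 := by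
      have := h1 1
      rwa [mul_one] at this
    have h4 : (⇑(algebraMap ℂ C(X, ℂ) c) : X → ℂ) = c • ⇑(1 : C(X, ℂ)) := by
      funext x
      simp
    rw [h4, ofUnits_smul, hj.smul _ _ hs, h3, Algebra.algebraMap_eq_smul_one]
  map_star' d := by
    have hs : ∀ d : C(X, ℂ), tw.IsSection (tw.ofUnits d) := fun d =>
      Twist.isSection_ofUnits h𝒢 (ContinuousMap.continuous _) (HasCompactSupport.of_compactSpace _)
    rw [← hj.star _ (hs d), ← ofUnits_star]
    rfl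

end main

end Pool.Agent.R293.TG
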