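import Pool.Agent.R293.TG.Sit

/-!
MP_8a69f9_an: the structure of a unital full twisted groupoid algebra, existence.
-/

set_option autoImplicit false

open Topology Filter

namespace Pool.Agent.R293.TG

open Pool.Agent.W657.TG

universe u

variable {X G S : Type u} [TopologicalSpace X] [TopologicalSpace G] [TopologicalSpace S]
  {𝒢 : TopGpd X G} {tw : Twist 𝒢 S}

theorem exists_sit [T2Space G] [T2Space S] [LocallyCompactSpace G] (h𝒢 : 𝒢.Etale)
    {B : Type u} [CStarAlgebra B] {j : (S → ℂ) → B} (hj : IsStarHom tw j)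
    (hd : closure (j '' {f | tw.IsSection f}) = Set.univ)
    (hn : ∀ f, tw.IsSection f → ‖reg tw f‖ ≤ ‖j f‖) :
    ∃ _ : CompactSpace X, Nonempty (Sit B X (l2 G)) := by
  classical
  have hT2 : T2Space X := TopGpd.t2_units 𝒢
  have hLC : LocallyCompactSpace X := TopGpd.locallyCompact_units h𝒢
  obtain ⟨Λ, hΛn, hΛj, hΛm, hΛs⟩ := exists_ext h𝒢 hj (reg_isStarHom h𝒢) hd hn
  have hcl : ∀ {s : Set B}, IsClosed s → (∀ f, tw.IsSection f → j f ∈ s) → ∀ b, b ∈ s := by
    intro s hs h b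
    have h2 : closure (j '' {f | tw.IsSection f}) ⊆ s := by
      apply closure_minimal _ hs
      rintro _ ⟨f, hf, rfl⟩
      exact h f hf
    rw [hd] at h2
    exact h2 trivial
  have happ : ∀ (b : B) (ε : ℝ), 0 < ε → ∃ f, tw.IsSection f ∧ ‖b - j f‖ < ε := by
    intro b ε hε
    have h1 : b ∈ closure (j '' {f | tw.IsSection f}) := by rw [hd]; trivial
    obtain ⟨_, ⟨f, hf, rfl⟩, h2⟩ := Metric.mem_closure_iff.1 h1 ε hε
    exact ⟨f, hf, by rwa [← dist_eq_norm]⟩
  have hred : ∀ a, Λ a ∈ tw.reduced := by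
    apply hcl (s := {a | Λ a ∈ tw.reduced}) (isClosed_closure.preimage Λ.continuous)
    intro f hf
    show Λ (j f) ∈ tw.reduced
    rw [hΛj f hf]
    exact Twist.mem_reduced hf (reg_spec h𝒢 hf)
  have hone : ∀ η, Λ 1 (dl η) = dl η := by
    intro η
    obtain ⟨d, hd1, -, hdc, -⟩ := exists_continuous_one_zero_of_isCompact (s := {𝒢.r η})
      (t := (∅ : Set X)) isCompact_singleton isClosed_empty (Set.disjoint_empty _)
    have hs : tw.IsSection (tw.ofUnits fun x => (d x : ℂ)) :=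
      Twist.isSection_ofUnits h𝒢 (Complex.continuous_ofReal.comp d.continuous)
        (hdc.comp_left (g := fun x : ℝ => (x : ℂ)) Complex.ofReal_zero)
    have h1 : reg tw (tw.ofUnits fun x => (d x : ℂ)) (dl η) = dl η := by
      apply lp.ext
      funext γ
      rw [reg_ofUnits h𝒢 hs, dl_apply]
      split_ifs with h
      · subst h
        have : d (𝒢.r γ) = 1 := hd1 (Set.mem_singleton _)
        rw [this]; simp
      · rw [mul_zero]
    calc Λ 1 (dl η) = (Λ 1 * reg tw (tw.ofUnits fun x => (d x : ℂ))) (dl η) := by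
          show _ = Λ 1 (reg tw _ (dl η))
          rw [h1]
      _ = reg tw (tw.ofUnits fun x => (d x : ℂ)) (dl η) := by
          rw [← hΛj _ hs, ← hΛm, one_mul]
      _ = dl η := h1
  have hdiag : ∀ f, tw.IsSection f → ∀ u, (reg tw f (dl (𝒢.unit u))) (𝒢.unit u) =
      f (tw.gpd.unit u) := by
    intro f hf u
    rw [reg_entry h𝒢 hf, Twist.entry_of_eq _ rfl, tw.gpd.mul_inv, tw.r_lift, 𝒢.r_unit]
  have hcomp : CompactSpace X := by
    obtain ⟨f, hf, hf2⟩ := happ 1 (1 / 2) (by norm_num)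
    have h1 : (Set.univ : Set X) = tw.gpd.s '' tsupport f := by
      symm
      rw [Set.eq_univ_iff_forall]
      intro u
      refine ⟨tw.gpd.unit u, ?_, tw.gpd.s_unit u⟩
      by_contra hne
      have h2 : f (tw.gpd.unit u) = 0 := image_eq_zero_of_notMem_tsupport hne
      have h3 := entry_le (Λ (1 - j f)) (𝒢.unit u) (𝒢.unit u)
      have h4 : (Λ (1 - j f) (dl (𝒢.unit u))) (𝒢.unit u) = 1 := by
        rw [map_sub, hΛj f hf]
        show (Λ 1 (dl (𝒢.unit u))) (𝒢.unit u) - (reg tw f (dl (𝒢.unit u))) (𝒢.unit u) = 1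
        rw [hdiag f hf, h2, hone, dl_self, sub_zero]
      rw [h4, norm_one] at h3
      have := hΛn (1 - j f)
      linarith
    refine ⟨?_⟩
    rw [h1]
    exact hf.hasCompactSupport.isCompact.image tw.gpd.continuous_s
  have hsec : ∀ d : C(X, ℂ), tw.IsSection (tw.ofUnits d) := fun d =>
    Twist.isSection_ofUnits h𝒢 (ContinuousMap.continuous _) (HasCompactSupport.of_compactSpace _)
  have hι : ∀ d : C(X, ℂ), Λ (iotaHom h𝒢 hj hd d) = reg tw (tw.ofUnits d) := fun d =>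
    hΛj _ (hsec d)
  refine ⟨hcomp, ⟨{
    Λ := Λ
    Λ_mul := hΛm
    Λ_star := hΛs
    Λ_norm := hΛn
    δ := fun u => dl (𝒢.unit u)
    δ_norm := fun u => norm_dl _
    ι := iotaHom h𝒢 hj hd
    ι_δ := ?_
    cont := ?_
    faith := ?_
    tr := ?_
    band := ?_ }⟩⟩
  · intro d u
    rw [hι]
    apply lp.ext
    funext γ
    rw [reg_ofUnits h𝒢 (hsec d)]
    show _ = d u * (dl (𝒢.unit u) : l2 G) γ
    by_cases h : γ = 𝒢.unit u
    · rw [h, 𝒢.r_unit]
    · rw [dl_ne h, mul_zero, mul_zero]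
  · intro a
    obtain ⟨F, hF⟩ := Twist.HasFun.of_mem (hred a)
    have h1 : (fun u => inner ℂ (dl (𝒢.unit u)) (Λ a (dl (𝒢.unit u)))) =
        fun u => F (tw.gpd.unit u) := by
      funext u
      rw [inner_dl, hF.diag]
    rw [h1]
    exact hF.continuous.comp tw.gpd.continuous_unit
  · intro a ha
    obtain ⟨F, hF⟩ := Twist.HasFun.of_mem (hred a)
    apply op_ext
    intro η
    rw [(hF.dl_eq_zero_iff' η).2 (ha _)]
    rfl
  · intro u d hdu w hw
    obtain ⟨F, hF⟩ := Twist.HasFun.of_mem (hred w)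
    have hsupp1 : ∀ γ, 𝒢.r γ ≠ u → (Λ w (dl (𝒢.unit u))) γ = 0 := by
      intro γ hγ
      rw [hw, hΛm, hΛm, hι]
      show (reg tw (tw.ofUnits d) _) γ = 0
      rw [reg_ofUnits h𝒢 (hsec d), hdu _ hγ, zero_mul]
    have hsupp2 : ∀ γ, 𝒢.r γ ≠ u → (Λ (star w) (dl (𝒢.unit u))) γ = 0 := by
      intro γ hγ
      have h1 : star w = iotaHom h𝒢 hj hd (star d) * (star w * iotaHom h𝒢 hj hd (star d)) := by
        conv_lhs => rw [hw]
        rw [star_mul, star_mul, map_star]
      rw [h1, hΛm, hι]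
      show (reg tw (tw.ofUnits ⇑(star d)) _) γ = 0
      rw [reg_ofUnits h𝒢 (hsec (star d))]
      show star (d (𝒢.r γ)) * _ = 0
      rw [hdu _ hγ, star_zero, zero_mul]
    have e1 : ∀ γ, (Λ w (dl (𝒢.unit u))) γ = tw.entry F γ (𝒢.unit u) := fun γ => hF.apply_dl _ _
    have e2 : ∀ γ, (Λ (star w) (dl (𝒢.unit u))) γ =
        (starRingEnd ℂ) (tw.entry F (𝒢.unit u) γ) := fun γ => by
      rw [hΛs, ContinuousLinearMap.star_eq_adjoint, adj_entry, hF.apply_dl]
    have key : ∀ γ, ‖(Λ w (dl (𝒢.unit u))) (𝒢.inv γ)‖ ^ 2 =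
        ‖(Λ (star w) (dl (𝒢.unit u))) γ‖ ^ 2 := by
      intro γ
      by_cases h1 : 𝒢.r γ = u
      · by_cases h2 : 𝒢.s γ = u
        · have s1 : 𝒢.s (𝒢.inv γ) = 𝒢.s (𝒢.unit u) := by rw [𝒢.s_inv, 𝒢.s_unit, h1]
          have s2 : 𝒢.s (𝒢.unit u) = 𝒢.s γ := by rw [𝒢.s_unit, h2]
          rw [e1, e2, Twist.entry_of_eq _ s1, Twist.entry_of_eq _ s2, RCLike.norm_conj]
          have hp : tw.proj (tw.gpd.mul (tw.lift (𝒢.inv γ)) (tw.gpd.inv (tw.lift (𝒢.unit u)))) =
              tw.proj (tw.gpd.mul (tw.lift (𝒢.unit u)) (tw.gpd.inv (tw.lift γ))) := by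
            rw [Twist.proj_mul_lift s1, Twist.proj_mul_lift s2, TopGpd.inv_unit]
            have h3 := 𝒢.mul_unit (𝒢.inv γ)
            rw [𝒢.s_inv, h1] at h3
            have h4 := 𝒢.unit_mul (𝒢.inv γ)
            rw [𝒢.r_inv, h2] at h4
            rw [h3, h4]
          obtain ⟨z, hz⟩ := tw.exists_act hp
          rw [hz, hF.equivariant, norm_mul, Twist.norm_conj_circle, one_mul]
        · rw [hsupp1 _ (by rw [𝒢.r_inv]; exact h2), e2, Twist.entry_of_ne _ (by
            rw [𝒢.s_unit]; exact fun h => h2 h.symm)]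
          simp
      · rw [hsupp2 _ h1, e1, Twist.entry_of_ne _ (by rw [𝒢.s_inv, 𝒢.s_unit]; exact h1)]
    have hinv : Function.Involutive 𝒢.inv := fun g => TopGpd.inv_inv g
    have h5 : ‖Λ w (dl (𝒢.unit u))‖ ^ 2 = ‖Λ (star w) (dl (𝒢.unit u))‖ ^ 2 := by
      rw [norm_sq_l2, norm_sq_l2, ← hinv.toPerm.tsum_eq]
      exact tsum_congr key
    exact (sq_eq_sq₀ (norm_nonneg _) (norm_nonneg _)).1 h5
  · intro T ε hε
    obtain ⟨f, hf, hf2⟩ := happ T ε hε
    obtain ⟨N, hN⟩ := TopGpd.finite_fibre h𝒢.1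
      (hf.hasCompactSupport.isCompact.image tw.continuous_proj)
    refine ⟨j f, hf2, N, fun v => ?_⟩
    obtain ⟨hfin, hcard⟩ := hN v
    refine ⟨hfin.toFinset.image 𝒢.r, ?_, ?_⟩
    · refine Finset.card_image_le.trans ?_
      rw [← Set.ncard_eq_toFinset_card _ hfin]
      exact hcard
    · intro u hu d d' hdu hdv
      have h1 : iotaHom h𝒢 hj hd d * j f * iotaHom h𝒢 hj hd d' =
          j (fun σ => d (tw.gpd.r σ) * (f σ * d' (tw.gpd.s σ))) := by
        have h2 : iotaHom h𝒢 hj hd d * j f * iotaHom h𝒢 hj hd d' =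
            j (tw.ofUnits d) * (j f * j (tw.ofUnits d')) := by rw [mul_assoc]; rfl
        rw [h2, ← hj.mul _ _ hf (hsec d'), ← hj.mul _ _ (hsec d)
          (isSection_conv h𝒢 hf (hsec d')), conv_ofUnits_left (hsec d)
          (isSection_conv h𝒢 hf (hsec d')), conv_ofUnits_right (hsec d') hf]
      have h3 : (fun σ => d (tw.gpd.r σ) * (f σ * d' (tw.gpd.s σ))) = (0 : ℂ) • f := by
        funext σ
        show _ = (0 : ℂ) * f σ
        rw [zero_mul]
        by_cases hr : tw.gpd.r σ = u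
        · by_cases hs : tw.gpd.s σ = v
          · have h4 : f σ = 0 := by
              by_contra hne
              apply hu
              rw [Finset.mem_image]
              refine ⟨tw.proj σ, ?_, by rw [tw.r_proj, hr]⟩
              rw [Set.Finite.mem_toFinset]
              exact ⟨⟨σ, subset_tsupport f hne, rfl⟩, by rw [tw.s_proj, hs]⟩
            rw [h4]; simp
          · rw [hdv _ hs]; simp
        · rw [hdu _ hr]; simp
      rw [h1, h3, hj.smul _ _ hf, zero_smul]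

end Pool.Agent.R293.TG
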